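import Mathlib

namespace Pool.Agent.Helper372.LJ

open Set Filter Topology

noncomputable section

/-- the square of a seminorm, through convexity and homogeneity -/
structure SqN {V : Type*} [AddCommGroup V] [Module ℝ V] (q : V → ℝ) : Prop where
  nonneg : ∀ x, 0 ≤ q x
  smul : ∀ (c : ℝ) x, q (c • x) = c ^ 2 * q x
  convex : ∀ (s t : ℝ) x y, 0 ≤ s → 0 ≤ t → s + t = 1 → q (s • x + t • y) ≤ s * q x + t * q y

variable {V : Type*} [AddCommGroup V] [Module ℝ V] {q : V → ℝ}

lemma SqN.split (hq : SqN q) {a b : ℝ} (ha : 0 < a) (hb : 0 < b) (x y : V) :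
    q (x + y) ≤ q x * (a + b) / a + q y * (a + b) / b := by
  have hab : 0 < a + b := by positivity
  have h := hq.convex (a / (a + b)) (b / (a + b)) (((a + b) / a) • x) (((a + b) / b) • y)
    (by positivity) (by positivity) (by field_simp)
  rw [smul_smul, smul_smul, hq.smul, hq.smul] at h
  have e1 : a / (a + b) * ((a + b) / a) = 1 := by field_simp
  have e2 : b / (a + b) * ((a + b) / b) = 1 := by field_simp
  rw [e1, e2, one_smul, one_smul] at h
  refine h.trans (le_of_eq ?_)
  field_simp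

lemma SqN.sqrt_add_le (hq : SqN q) (x y : V) :
    Real.sqrt (q (x + y)) ≤ Real.sqrt (q x) + Real.sqrt (q y) := by
  refine le_of_forall_pos_le_add fun ε hε => ?_
  set a := Real.sqrt (q x) + ε / 2 with ha
  set b := Real.sqrt (q y) + ε / 2 with hb
  have ha0 : 0 < a := by positivity
  have hb0 : 0 < b := by positivity
  have h1 : q x ≤ a ^ 2 := by
    have := Real.sq_sqrt (hq.nonneg x)
    have := Real.sqrt_nonneg (q x)
    nlinarith
  have h2 : q y ≤ b ^ 2 := by
    have := Real.sq_sqrt (hq.nonneg y)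
    have := Real.sqrt_nonneg (q y)
    nlinarith
  have h3 := hq.split ha0 hb0 x y
  have h4 : q x * (a + b) / a ≤ a * (a + b) := by
    rw [div_le_iff₀ ha0]
    nlinarith [mul_le_mul_of_nonneg_right h1 (by positivity : 0 ≤ a + b)]
  have h5 : q y * (a + b) / b ≤ b * (a + b) := by
    rw [div_le_iff₀ hb0]
    nlinarith [mul_le_mul_of_nonneg_right h2 (by positivity : 0 ≤ a + b)]
  have h6 : q (x + y) ≤ (a + b) ^ 2 := by nlinarith
  have h7 : Real.sqrt (q (x + y)) ≤ a + b := Real.sqrt_le_iff.2 ⟨by positivity, h6⟩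
  rw [ha, hb] at h7
  linarith

/-- second differences are small -/
def SD (q : V → ℝ) (x h : V) : Prop :=
  ∀ ε > 0, ∃ d0 > 0, ∀ d : ℝ, 0 < d → d < d0 → q (x + d • h) + q (x - d • h) - 2 * q x ≤ ε * d

lemma SD_zero (q : V → ℝ) (x : V) : SD q x 0 := by
  intro ε hε
  refine ⟨1, one_pos, fun d hd _ => ?_⟩
  simp only [smul_zero, add_zero, sub_zero]
  have := mul_pos hε hd
  linarith

lemma SqN.half (hq : SqN q) (x h k : V) (d : ℝ) :
    q (x + d • (h + k)) ≤ (q (x + (2 * d) • h) + q (x + (2 * d) • k)) / 2 := by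
  have := hq.convex (1 / 2) (1 / 2) (x + (2 * d) • h) (x + (2 * d) • k) (by norm_num)
    (by norm_num) (by norm_num)
  have e : (1 / 2 : ℝ) • (x + (2 * d) • h) + (1 / 2 : ℝ) • (x + (2 * d) • k)
      = x + d • (h + k) := by
    module
  rw [e] at this
  linarith

lemma SD.add (hq : SqN q) {x h k : V} (h1 : SD q x h) (h2 : SD q x k) : SD q x (h + k) := by
  intro ε hε
  obtain ⟨d1, hd1, e1⟩ := h1 (ε / 2) (by positivity)
  obtain ⟨d2, hd2, e2⟩ := h2 (ε / 2) (by positivity)
  refine ⟨min d1 d2 / 2, by positivity, fun d hd hd' => ?_⟩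
  have m1 : 2 * d < d1 := by have := min_le_left d1 d2; linarith
  have m2 : 2 * d < d2 := by have := min_le_right d1 d2; linarith
  have f1 := e1 (2 * d) (by positivity) m1
  have f2 := e2 (2 * d) (by positivity) m2
  have g1 := hq.half x h k d
  have g2 := hq.half x h k (-d)
  rw [show x + (-d) • (h + k) = x - d • (h + k) by module,
    show x + (2 * -d) • h = x - (2 * d) • h by module,
    show x + (2 * -d) • k = x - (2 * d) • k by module] at g2
  linarith

lemma SD.smul {x h : V} (h1 : SD q x h) (c : ℝ) : SD q x (c • h) := by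
  rcases lt_trichotomy c 0 with hc | hc | hc
  · intro ε hε
    obtain ⟨d1, hd1, e1⟩ := h1 (ε / (-c)) (div_pos hε (by linarith))
    refine ⟨d1 / (-c), div_pos hd1 (by linarith), fun d hd hd' => ?_⟩
    have hc' : 0 < -c := by linarith
    have := e1 (d * (-c)) (by positivity) (by rwa [lt_div_iff₀ hc'] at hd')
    rw [show x + (d * -c) • h = x - d • c • h by module,
      show x - (d * -c) • h = x + d • c • h by module] at this
    have e : ε / -c * (d * -c) = ε * d := by
      rw [div_mul_eq_mul_div, div_eq_iff hc'.ne']; ring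
    rw [e] at this
    linarith
  · subst hc; rw [zero_smul]; exact SD_zero q x
  · intro ε hε
    obtain ⟨d1, hd1, e1⟩ := h1 (ε / c) (by positivity)
    refine ⟨d1 / c, by positivity, fun d hd hd' => ?_⟩
    have := e1 (d * c) (by positivity) (by rwa [lt_div_iff₀ hc] at hd')
    rw [show x + (d * c) • h = x + d • c • h by module,
      show x - (d * c) • h = x - d • c • h by module] at this
    have e : ε / c * (d * c) = ε * d := by field_simp
    rw [e] at this
    linarith

lemma SqN.neg (hq : SqN q) (x : V) : q (-x) = q x := by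
  have := hq.smul (-1) x
  rw [neg_one_smul] at this
  rw [this]; ring

lemma SqN.sq_add_le (hq : SqN q) (x y : V) :
    q (x + y) ≤ q x + 2 * Real.sqrt (q x) * Real.sqrt (q y) + q y := by
  have h := hq.sqrt_add_le x y
  have h1 := Real.sq_sqrt (hq.nonneg x)
  have h2 := Real.sq_sqrt (hq.nonneg y)
  have h3 := Real.sq_sqrt (hq.nonneg (x + y))
  have h4 := pow_le_pow_left₀ (Real.sqrt_nonneg _) h 2
  rw [h3] at h4
  nlinarith

lemma SqN.sqrt_smul (hq : SqN q) (c : ℝ) (x : V) :
    Real.sqrt (q (c • x)) = |c| * Real.sqrt (q x) := by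
  rw [hq.smul, Real.sqrt_mul (sq_nonneg c), Real.sqrt_sq_eq_abs]

/-- closure of the good directions -/
lemma SD_lim (hq : SqN q) {x h : V} (H : ∀ η > 0, ∃ g k, h = g + k ∧ SD q x g ∧ q k ≤ η) :
    SD q x h := by
  intro ε hε
  set A := Real.sqrt (q x) with hA
  have hA0 : 0 ≤ A := Real.sqrt_nonneg _
  -- choose the approximation
  set η : ℝ := (min 1 (ε / (2 * (4 * A + 4)))) ^ 2 with hη
  have hη0 : 0 < η := by positivity
  obtain ⟨g, k, rfl, hg, hk⟩ := H η hη0
  have hk' : Real.sqrt (q k) ≤ min 1 (ε / (2 * (4 * A + 4))) := by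
    rw [Real.sqrt_le_iff]
    exact ⟨by positivity, hk⟩
  have hk1 : Real.sqrt (q k) ≤ 1 := hk'.trans (min_le_left _ _)
  have hk2 : Real.sqrt (q k) * (2 * (4 * A + 4)) ≤ ε := by
    have := hk'.trans (min_le_right _ _)
    rwa [le_div_iff₀ (by positivity)] at this
  have hk0 := Real.sqrt_nonneg (q k)
  obtain ⟨d1, hd1, e1⟩ := hg (ε / 2) (by positivity)
  refine ⟨min 1 (d1 / 2), by positivity, fun d hd hd' => ?_⟩
  have m0 : d < 1 := hd'.trans_le (min_le_left _ _)
  have m1 : 2 * d < d1 := by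
    have := hd'.trans_le (min_le_right _ _)
    linarith
  have f1 := e1 (2 * d) (by positivity) m1
  have g1 := hq.half x g k d
  have g2 := hq.half x g k (-d)
  rw [show x + (-d) • (g + k) = x - d • (g + k) by module,
    show x + (2 * -d) • g = x - (2 * d) • g by module,
    show x + (2 * -d) • k = x + (-(2 * d)) • k by module] at g2
  have b1 := hq.sq_add_le x ((2 * d) • k)
  have b2 := hq.sq_add_le x ((-(2 * d)) • k)
  rw [hq.sqrt_smul, abs_of_pos (by positivity : (0:ℝ) < 2 * d), hq.smul] at b1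
  rw [hq.sqrt_smul, abs_neg, abs_of_pos (by positivity : (0:ℝ) < 2 * d), hq.smul] at b2
  rw [← hA] at b1 b2
  have hsq : q k = Real.sqrt (q k) ^ 2 := (Real.sq_sqrt (hq.nonneg k)).symm
  have hkk : q k ≤ Real.sqrt (q k) := by
    rw [hsq, Real.sqrt_sq hk0]; nlinarith
  have hdd : d ^ 2 * q k ≤ d * Real.sqrt (q k) := by
    have : d ^ 2 ≤ d := by nlinarith
    calc d ^ 2 * q k ≤ d * q k := mul_le_mul_of_nonneg_right this (hq.nonneg k)
      _ ≤ d * Real.sqrt (q k) := mul_le_mul_of_nonneg_left hkk hd.le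
  have fin : d * (Real.sqrt (q k) * (2 * (4 * A + 4))) ≤ d * ε :=
    mul_le_mul_of_nonneg_left hk2 hd.le
  nlinarith

lemma convex_line (hq : SqN q) (x h : V) : ConvexOn ℝ univ (fun t : ℝ => q (x + t • h)) := by
  refine ⟨convex_univ, fun a _ b _ s t hs ht hst => ?_⟩
  have := hq.convex s t (x + a • h) (x + b • h) hs ht hst
  simp only [smul_eq_mul]
  have e : s • (x + a • h) + t • (x + b • h) = x + (s * a + t * b) • h := by
    have : (s + t) • x = x := by rw [hst, one_smul]
    calc s • (x + a • h) + t • (x + b • h) = (s + t) • x + (s * a + t * b) • h := by module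
      _ = _ := by rw [this]
  rw [e] at this
  exact this

lemma exists_deriv (hq : SqN q) {x h : V} (hS : SD q x h) :
    ∃ D, HasDerivAt (fun t : ℝ => q (x + t • h)) D 0 := by
  set φ : ℝ → ℝ := fun t => q (x + t • h) with hφ
  have hc : ConvexOn ℝ univ φ := convex_line hq x h
  have hr := hc.hasDerivWithinAt_rightDeriv_of_mem_interior (x := (0:ℝ)) (by simp)
  have hl := hc.hasDerivWithinAt_leftDeriv_of_mem_interior (x := (0:ℝ)) (by simp)
  have hle := hc.leftDeriv_le_rightDeriv_of_mem_interior (x := (0:ℝ)) (by simp)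
  set R := derivWithin φ (Ioi 0) 0 with hR
  set L := derivWithin φ (Iio 0) 0 with hL
  have hRL : R ≤ L := by
    refine le_of_forall_pos_le_add fun ε hε => ?_
    obtain ⟨d0, hd0, e0⟩ := hS ε hε
    -- slopes
    have s1 : R ≤ (φ (d0 / 2) - φ 0) / (d0 / 2) := by
      have := hc.rightDeriv_le_slope_of_mem_interior (x := 0) (y := d0 / 2) (by simp)
        (mem_univ _) (by positivity)
      rwa [slope_def_field, sub_zero] at this
    have s2 : (φ 0 - φ (-(d0 / 2))) / (d0 / 2) ≤ L := by
      have := hc.slope_le_leftDeriv_of_mem_interior (x := -(d0 / 2)) (y := 0)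
        (mem_univ _) (by simp) (by linarith [half_pos hd0])
      rwa [slope_def_field, zero_sub, neg_neg] at this
    have h1 := e0 (d0 / 2) (by positivity) (by linarith)
    have h2 : φ (d0 / 2) = q (x + (d0 / 2) • h) := rfl
    have h3 : φ (-(d0 / 2)) = q (x - (d0 / 2) • h) := by
      simp only [hφ]; congr 1; module
    have h4 : φ 0 = q x := by simp [hφ]
    rw [h2, h4, le_div_iff₀ (by positivity)] at s1
    rw [h3, h4, div_le_iff₀ (by positivity)] at s2
    have h5 : R * (d0 / 2) ≤ (L + ε) * (d0 / 2) := by linarith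
    exact le_of_mul_le_mul_right h5 (by positivity)
  have hEq : R = L := le_antisymm hRL hle
  refine ⟨R, ?_⟩
  rw [← hEq] at hl
  have := hl.union hr
  rw [Iio_union_Ioi, compl_eq_univ_sdiff] at this
  exact (hasDerivWithinAt_sdiff_singleton.1 this).hasDerivAt univ_mem

lemma hasDerivAt_scale {x h : V} {D : ℝ} (hD : HasDerivAt (fun t : ℝ => q (x + t • h)) D 0)
    (c : ℝ) : HasDerivAt (fun t : ℝ => q (x + t • (c • h))) (c * D) 0 := by
  have h1 : HasDerivAt (fun t : ℝ => c * t) c 0 := by
    simpa using (hasDerivAt_id (0:ℝ)).const_mul c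
  have h2 : HasDerivAt (fun t : ℝ => q (x + t • h)) D (c * 0) := by rwa [mul_zero]
  have h3 := h2.comp (0:ℝ) h1
  rw [mul_comm] at h3
  refine h3.congr_of_eventuallyEq (Filter.Eventually.of_forall fun t => ?_)
  simp only [Function.comp]
  congr 1
  module

lemma gateaux (hq : SqN q) {x : V} (hS : ∀ h, SD q x h) :
    ∃ D : V →ₗ[ℝ] ℝ, ∀ h, HasDerivAt (fun t : ℝ => q (x + t • h)) (D h) 0 := by
  choose D hD using fun h => exists_deriv hq (hS h)
  refine ⟨⟨⟨D, ?_⟩, ?_⟩, hD⟩
  · intro h k
    have h1 := hasDerivAt_scale (hD h) 2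
    have h2 := hasDerivAt_scale (hD k) 2
    have h3 := hD (h + k)
    have h4 := ((h1.add h2).div_const 2).sub h3
    have hmin : IsLocalMin ((fun t : ℝ => ((fun t : ℝ => q (x + t • ((2:ℝ) • h)))
        + fun t : ℝ => q (x + t • ((2:ℝ) • k))) t / 2) - fun t : ℝ => q (x + t • (h + k))) 0 := by
      refine Filter.Eventually.of_forall fun t => ?_
      have := hq.half x h k t
      simp only [Pi.sub_apply, Pi.add_apply, zero_smul, add_zero]
      rw [show t • (2:ℝ) • h = (2 * t) • h by module, show t • (2:ℝ) • k = (2 * t) • k by module]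
      linarith
    have := hmin.hasDerivAt_eq_zero h4
    linarith
  · intro c h
    simp only [RingHom.id_apply, smul_eq_mul]
    exact (hD (c • h)).unique (hasDerivAt_scale (hD h) c)

theorem gateaux_sqrt (hq : SqN q) {x : V} (hx : q x ≠ 0) (hS : ∀ h, SD q x h) :
    ∃ D : V →ₗ[ℝ] ℝ, (∀ h, |D h| ≤ Real.sqrt (q h)) ∧
      ∀ h, HasDerivAt (fun t : ℝ => Real.sqrt (q (x + t • h))) (D h) 0 := by
  obtain ⟨D, hD⟩ := gateaux hq hS
  have hd : ∀ h, HasDerivAt (fun t : ℝ => Real.sqrt (q (x + t • h)))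
      (((1 / (2 * Real.sqrt (q x))) • D) h) 0 := by
    intro h
    have := (hD h).sqrt (by simpa using hx)
    convert this using 1
    simp only [LinearMap.smul_apply, smul_eq_mul, zero_smul, add_zero]
    ring
  refine ⟨(1 / (2 * Real.sqrt (q x))) • D, fun h => ?_, hd⟩
  rw [← Real.norm_eq_abs]
  refine HasDerivAt.le_of_lip' (hd h) (Real.sqrt_nonneg _) ?_
  refine Filter.Eventually.of_forall fun t => ?_
  simp only [zero_smul, add_zero, sub_zero, Real.norm_eq_abs]
  have e1 := hq.sqrt_add_le x (t • h)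
  have e2 := hq.sqrt_add_le (x + t • h) (-(t • h))
  rw [add_neg_cancel_right, hq.neg] at e2
  rw [hq.sqrt_smul] at e1 e2
  rw [abs_sub_le_iff]
  constructor <;> linarith

/-- the derivative of the square, with a bound -/
theorem gateaux_bdd (hq : SqN q) {x : V} (hS : ∀ h, SD q x h) :
    ∃ D : V →ₗ[ℝ] ℝ, (∀ h, |D h| ≤ 2 * Real.sqrt (q x) * Real.sqrt (q h)) ∧
      ∀ h, HasDerivAt (fun t : ℝ => q (x + t • h)) (D h) 0 := by
  obtain ⟨D, hD⟩ := gateaux hq hS
  have key : ∀ h, D h ≤ 2 * Real.sqrt (q x) * Real.sqrt (q h) := by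
    intro h
    refine le_of_forall_pos_le_add fun ε hε => ?_
    have hqh := hq.nonneg h
    set d := ε / (q h + 1) with hd
    have hd0 : 0 < d := by positivity
    have h1 := (convex_line hq x h).le_slope_of_hasDerivAt (mem_univ 0) (mem_univ d) hd0 (hD h)
    rw [slope_def_field, sub_zero, le_div_iff₀ hd0] at h1
    simp only [zero_smul, add_zero] at h1
    have h2 := hq.sq_add_le x (d • h)
    rw [hq.sqrt_smul, abs_of_pos hd0, hq.smul] at h2
    have h3 : D h * d ≤ (2 * Real.sqrt (q x) * Real.sqrt (q h) + d * q h) * d := by nlinarith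
    have h4 := le_of_mul_le_mul_right h3 hd0
    have h5 : d * q h ≤ ε := by
      rw [hd, div_mul_eq_mul_div, div_le_iff₀ (by positivity)]
      nlinarith
    linarith
  refine ⟨D, fun h => abs_le.2 ⟨?_, key h⟩, hD⟩
  have := key (-h)
  rw [map_neg, hq.neg] at this
  linarith

end

end Pool.Agent.Helper372.LJ
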