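import Mathlib

namespace Pool.Agent.Helper372.LJ

noncomputable section

/-- The coupling function `sqrt (x^4 + 6 x^2 v^2 + v^4)`, the square of a smooth norm of the
plane. -/
def G (x v : ℝ) : ℝ := Real.sqrt (x ^ 4 + 6 * x ^ 2 * v ^ 2 + v ^ 4)

lemma G_arg_nonneg (x v : ℝ) : 0 ≤ x ^ 4 + 6 * x ^ 2 * v ^ 2 + v ^ 4 := by positivity

lemma G_nonneg (x v : ℝ) : 0 ≤ G x v := Real.sqrt_nonneg _

lemma G_sq (x v : ℝ) : G x v ^ 2 = x ^ 4 + 6 * x ^ 2 * v ^ 2 + v ^ 4 :=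
  Real.sq_sqrt (G_arg_nonneg x v)

lemma G_ge (x v : ℝ) : x ^ 2 + v ^ 2 ≤ G x v := by
  apply Real.le_sqrt_of_sq_le
  nlinarith [sq_nonneg (x * v)]

lemma G_gt {x v : ℝ} (hx : x ≠ 0) (hv : v ≠ 0) : x ^ 2 + v ^ 2 < G x v := by
  apply Real.lt_sqrt_of_sq_lt
  have : 0 < (x * v) ^ 2 := by positivity
  nlinarith

lemma G_le (x v : ℝ) : G x v ≤ x ^ 2 + 3 * v ^ 2 := by
  apply Real.sqrt_le_iff.2 ⟨by positivity, ?_⟩
  nlinarith [sq_nonneg (v * v)]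

lemma G_le' (x v : ℝ) : G x v ≤ 3 * x ^ 2 + v ^ 2 := by
  apply Real.sqrt_le_iff.2 ⟨by positivity, ?_⟩
  nlinarith [sq_nonneg (x * x)]

lemma G_zero_right (x : ℝ) : G x 0 = x ^ 2 := by
  apply le_antisymm
  · simpa using G_le x 0
  · simpa using G_ge x 0

lemma G_zero_left (v : ℝ) : G 0 v = v ^ 2 := by
  apply le_antisymm
  · simpa using G_le' 0 v
  · simpa using G_ge 0 v

lemma G_neg_left (x v : ℝ) : G (-x) v = G x v := by
  unfold G; congr 1; ring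

lemma G_neg_right (x v : ℝ) : G x (-v) = G x v := by
  unfold G; congr 1; ring

lemma G_abs_right (x v : ℝ) : G x |v| = G x v := by
  rcases abs_choice v with h | h <;> rw [h]
  exact G_neg_right x v

lemma G_mono (x : ℝ) {v w : ℝ} (h : v ^ 2 ≤ w ^ 2) : G x v + (w ^ 2 - v ^ 2) ≤ G x w := by
  apply Real.le_sqrt_of_sq_le
  have h1 := G_sq x v
  have h2 := G_le' x v
  have h0 := G_nonneg x v
  nlinarith [mul_le_mul_of_nonneg_right h2 (sub_nonneg.2 h), sq_nonneg (x * v), sq_nonneg x]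

lemma G_shift (x d v : ℝ) : G (x + d) v ≤ G x v + 6 * |x| * |d| + 3 * d ^ 2 := by
  have h0 := G_nonneg x v
  have hG := G_ge x v
  have hsq := G_sq x v
  have ax := abs_nonneg x
  have ad := abs_nonneg d
  apply Real.sqrt_le_iff.2 ⟨by positivity, ?_⟩
  have e1 : x ^ 2 = |x| ^ 2 := (sq_abs x).symm
  have e2 : d ^ 2 = |d| ^ 2 := (sq_abs d).symm
  have hxd : x * d ≤ |x| * |d| := by rw [← abs_mul]; exact le_abs_self _
  have b1 : x ^ 3 * d ≤ |x| ^ 3 * |d| := by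
    have : x ^ 3 * d = x ^ 2 * (x * d) := by ring
    rw [this, show |x| ^ 3 * |d| = |x| ^ 2 * (|x| * |d|) by ring, e1]
    exact mul_le_mul_of_nonneg_left hxd (by positivity)
  have b2 : x * d ^ 3 ≤ |x| * |d| ^ 3 := by
    have : x * d ^ 3 = d ^ 2 * (x * d) := by ring
    rw [this, show |x| * |d| ^ 3 = |d| ^ 2 * (|x| * |d|) by ring, e2]
    exact mul_le_mul_of_nonneg_left hxd (by positivity)
  have b3 : x * d * v ^ 2 ≤ |x| * |d| * v ^ 2 := mul_le_mul_of_nonneg_right hxd (by positivity)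
  have lhs : (x + d) ^ 4 + 6 * (x + d) ^ 2 * v ^ 2 + v ^ 4
      = G x v ^ 2 + 4 * (x ^ 3 * d) + 6 * (|x| ^ 2 * |d| ^ 2) + 4 * (x * d ^ 3) + |d| ^ 4
        + 12 * (x * d * v ^ 2) + 6 * (|d| ^ 2 * v ^ 2) := by
    rw [hsq]
    have : |d| ^ 4 = d ^ 4 := by
      rw [show |d| ^ 4 = (|d| ^ 2) ^ 2 by ring, ← e2]; ring
    rw [this, ← e1, ← e2]; ring
  rw [lhs]
  have hG' : |x| ^ 2 + v ^ 2 ≤ G x v := by rw [← e1]; exact hG
  have c1 : |x| * |d| * (|x| ^ 2 + v ^ 2) ≤ |x| * |d| * G x v :=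
    mul_le_mul_of_nonneg_left hG' (by positivity)
  have c2 : |d| ^ 2 * (|x| ^ 2 + v ^ 2) ≤ |d| ^ 2 * G x v :=
    mul_le_mul_of_nonneg_left hG' (by positivity)
  have p1 : 0 ≤ |x| ^ 2 * |d| ^ 2 := by positivity
  have p2 : 0 ≤ |x| * |d| ^ 3 := by positivity
  have p3 : 0 ≤ |d| ^ 4 := by positivity
  have p4 : 0 ≤ |x| ^ 3 * |d| := by positivity
  rw [e2]
  nlinarith

lemma G_shift_sub (x d v : ℝ) : G (x - d) v ≤ G x v + 6 * |x| * |d| + 3 * d ^ 2 := by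
  have := G_shift x (-d) v
  simpa [sub_eq_add_neg] using this

lemma G_second (x d v : ℝ) : G (x + d) v + G (x - d) v ≤ 2 * G x v + 6 * d ^ 2 := by
  have h0 := G_nonneg x v
  have hG := G_ge x v
  have h1 := G_nonneg (x + d) v
  have h2 := G_nonneg (x - d) v
  have s0 := G_sq x v
  have s1 := G_sq (x + d) v
  have s2 := G_sq (x - d) v
  apply abs_le_of_sq_le_sq' _ (by positivity) |>.2
  have k1 : (G (x + d) v + G (x - d) v) ^ 2 ≤ 2 * (G (x + d) v ^ 2 + G (x - d) v ^ 2) := by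
    nlinarith [sq_nonneg (G (x + d) v - G (x - d) v)]
  refine k1.trans ?_
  rw [s1, s2]
  have c2 : d ^ 2 * (x ^ 2 + v ^ 2) ≤ d ^ 2 * G x v :=
    mul_le_mul_of_nonneg_left hG (by positivity)
  nlinarith [sq_nonneg (d ^ 2), sq_nonneg (x * d), sq_nonneg (v * d)]

lemma G_smul (c x v : ℝ) : G (c * x) (c * v) = c ^ 2 * G x v := by
  unfold G
  rw [show (c * x) ^ 4 + 6 * (c * x) ^ 2 * (c * v) ^ 2 + (c * v) ^ 4
    = (c ^ 2) ^ 2 * (x ^ 4 + 6 * x ^ 2 * v ^ 2 + v ^ 4) by ring,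
    Real.sqrt_mul (by positivity), Real.sqrt_sq (by positivity)]

lemma aux_cs (P M P' M' : ℝ) :
    (P * P' + M * M') ^ 2 ≤ (P ^ 2 + M ^ 2) * (P' ^ 2 + M' ^ 2) := by
  nlinarith [sq_nonneg (P * M' - M * P')]

lemma aux_sq_convex {s t : ℝ} (hs : 0 ≤ s) (ht : 0 ≤ t) (hst : s + t = 1) (a b : ℝ) :
    (s * a + t * b) ^ 2 ≤ s * a ^ 2 + t * b ^ 2 := by
  have : s * a ^ 2 + t * b ^ 2 - (s * a + t * b) ^ 2
      = s * t * (a - b) ^ 2 + (s * a ^ 2 + t * b ^ 2) * (1 - (s + t)) := by ring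
  have h : 0 ≤ s * t * (a - b) ^ 2 := by positivity
  rw [hst] at this
  linarith

lemma aux_final {s t P M P' M' g g' X Y : ℝ} (hs : 0 ≤ s) (ht : 0 ≤ t)
    (hX : X ≤ (s * P + t * P') ^ 2) (hY : Y ≤ (s * M + t * M') ^ 2)
    (f0 : 2 * g ^ 2 = P ^ 2 + M ^ 2) (f1 : 2 * g' ^ 2 = P' ^ 2 + M' ^ 2)
    (cs : P * P' + M * M' ≤ 2 * (g * g')) :
    (X + Y) / 2 ≤ (s * g + t * g') ^ 2 := by
  have k := mul_le_mul_of_nonneg_left cs (mul_nonneg hs ht)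
  have e : 2 * (s * g + t * g') ^ 2
      = s ^ 2 * (2 * g ^ 2) + t ^ 2 * (2 * g' ^ 2) + 2 * (s * t * (2 * (g * g'))) := by ring
  have e2 : (s * P + t * P') ^ 2 + (s * M + t * M') ^ 2
      = s ^ 2 * (P ^ 2 + M ^ 2) + t ^ 2 * (P' ^ 2 + M' ^ 2) + 2 * (s * t * (P * P' + M * M')) := by
    ring
  rw [f0, f1] at e
  linarith

lemma G_convex {s t : ℝ} (hs : 0 ≤ s) (ht : 0 ≤ t) (hst : s + t = 1) (x v x' v' : ℝ) :
    G (s * x + t * x') (s * v + t * v') ≤ s * G x v + t * G x' v' := by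
  have g0 := G_nonneg x v
  have g1 := G_nonneg x' v'
  apply Real.sqrt_le_iff.2 ⟨by positivity, ?_⟩
  have f0 : 2 * G x v ^ 2 = ((x + v) ^ 2) ^ 2 + ((x - v) ^ 2) ^ 2 := by rw [G_sq]; ring
  have f1 : 2 * G x' v' ^ 2 = ((x' + v') ^ 2) ^ 2 + ((x' - v') ^ 2) ^ 2 := by rw [G_sq]; ring
  have a1 := aux_sq_convex hs ht hst (x + v) (x' + v')
  have a2 := aux_sq_convex hs ht hst (x - v) (x' - v')
  have b1 := pow_le_pow_left₀ (by positivity) a1 2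
  have b2 := pow_le_pow_left₀ (by positivity) a2 2
  have cs : (x + v) ^ 2 * (x' + v') ^ 2 + (x - v) ^ 2 * (x' - v') ^ 2
      ≤ 2 * (G x v * G x' v') := by
    apply abs_le_of_sq_le_sq' _ (by positivity) |>.2
    have h := aux_cs ((x + v) ^ 2) ((x - v) ^ 2) ((x' + v') ^ 2) ((x' - v') ^ 2)
    rw [← f0, ← f1] at h
    linarith
  have key : (s * x + t * x') ^ 4 + 6 * (s * x + t * x') ^ 2 * (s * v + t * v') ^ 2
      + (s * v + t * v') ^ 4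
      = (((s * (x + v) + t * (x' + v')) ^ 2) ^ 2 + ((s * (x - v) + t * (x' - v')) ^ 2) ^ 2) / 2 := by
    ring
  rw [key]
  exact aux_final hs ht b1 b2 f0 f1 cs

lemma continuous_G : Continuous (fun p : ℝ × ℝ => G p.1 p.2) := by
  unfold G; fun_prop

end

end Pool.Agent.Helper372.LJ
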