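import Mathlib
import Pool.Agent.Helper372.LJ.Coupling

namespace Pool.Agent.Helper372.LJ

open Order Set Filter Topology

noncomputable section

abbrev Ord := Ordinal.{0}

/-- Value of the part of a chain to the right of `b`. -/
def rv (v f : Ord → ℝ) : Ord → List Ord → ℝ
  | b, [] => 2 * f b ^ 2
  | b, c :: l => G (f c - f b) (v c) + rv v f c l

/-- Value of the part of a chain to the left of `b` (listed downwards). -/
def lv (v f : Ord → ℝ) : Ord → List Ord → ℝ
  | b, [] => v b ^ 2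
  | b, a :: l => lv v f a l + G (f b - f a) (v b)

/-- A finite nonempty chain of ordinals with a marked element. -/
structure Zip where
  l : List Ord
  x : Ord
  r : List Ord
  hl : (x :: l).IsChain (· > ·)
  hr : (x :: r).IsChain (· < ·)

instance : Nonempty Zip := ⟨⟨[], 0, [], by simp, by simp⟩⟩

/-- The value of a chain. -/
def Q (v f : Ord → ℝ) (z : Zip) : ℝ := lv v f z.x z.l + rv v f z.x z.r

def Zip.Avoids (z : Zip) (b : Ord) : Prop := b ∉ z.l ∧ b ≠ z.x ∧ b ∉ z.r

def Bd (v f : Ord → ℝ) : Prop := BddAbove (range (Q v f))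

def Lf (v f : Ord → ℝ) (b : Ord) : ℝ :=
  ⨆ l : {l : List Ord // (b :: l).IsChain (· > ·)}, lv v f b l.1

def Rf (v f : Ord → ℝ) (b : Ord) : ℝ :=
  ⨆ l : {l : List Ord // (b :: l).IsChain (· < ·)}, rv v f b l.1

def N2 (v f : Ord → ℝ) : ℝ := ⨆ z : Zip, Q v f z

def Nm (v f : Ord → ℝ) (b : Ord) : ℝ := ⨆ z : {z : Zip // z.Avoids b}, Q v f z.1

lemma rv_nonneg (v f : Ord → ℝ) (b : Ord) (l : List Ord) : 0 ≤ rv v f b l := by
  induction l generalizing b with
  | nil => simp [rv]; positivity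
  | cons c l ih => simp only [rv]; exact add_nonneg (G_nonneg _ _) (ih c)

lemma lv_nonneg (v f : Ord → ℝ) (b : Ord) (l : List Ord) : 0 ≤ lv v f b l := by
  induction l generalizing b with
  | nil => simp [lv]; positivity
  | cons c l ih => simp only [lv]; exact add_nonneg (ih c) (G_nonneg _ _)

lemma Q_nonneg (v f : Ord → ℝ) (z : Zip) : 0 ≤ Q v f z :=
  add_nonneg (lv_nonneg _ _ _ _) (rv_nonneg _ _ _ _)

instance (b : Ord) : Nonempty {l : List Ord // (b :: l).IsChain (· > ·)} := ⟨⟨[], by simp⟩⟩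
instance (b : Ord) : Nonempty {l : List Ord // (b :: l).IsChain (· < ·)} := ⟨⟨[], by simp⟩⟩

lemma chain_mem_lt {b : Ord} {l : List Ord} (h : (b :: l).IsChain (· < ·)) {c : Ord}
    (hc : c ∈ l) : b < c := by
  have := List.isChain_iff_pairwise.1 h
  exact (List.pairwise_cons.1 this).1 c hc

lemma chain_mem_gt {b : Ord} {l : List Ord} (h : (b :: l).IsChain (· > ·)) {c : Ord}
    (hc : c ∈ l) : c < b := by
  have := List.isChain_iff_pairwise.1 h
  exact (List.pairwise_cons.1 this).1 c hc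

instance (b : Ord) : Nonempty {z : Zip // z.Avoids b} :=
  ⟨⟨⟨[], Order.succ b, [], by simp, by simp⟩, by simp, (Order.lt_succ b).ne, by simp⟩⟩

section bounded

variable {v f : Ord → ℝ} (h : Bd v f)
include h

lemma Q_le_N2 (z : Zip) : Q v f z ≤ N2 v f := le_ciSup h z

lemma Q_le_Nm {b : Ord} (z : Zip) (hz : z.Avoids b) : Q v f z ≤ Nm v f b := by
  refine le_ciSup (f := fun z : {z : Zip // z.Avoids b} => Q v f z.1) ?_ ⟨z, hz⟩
  exact h.mono (by rintro _ ⟨z, rfl⟩; exact ⟨z.1, rfl⟩)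

lemma N2_nonneg : 0 ≤ N2 v f := (Q_nonneg v f (Classical.arbitrary Zip)).trans (Q_le_N2 h _)

lemma Nm_le_N2 (b : Ord) : Nm v f b ≤ N2 v f := ciSup_le fun z => Q_le_N2 h z.1

lemma lr_le (b : Ord) {l r : List Ord} (hl : (b :: l).IsChain (· > ·))
    (hr : (b :: r).IsChain (· < ·)) : lv v f b l + rv v f b r ≤ N2 v f :=
  Q_le_N2 h ⟨l, b, r, hl, hr⟩

lemma le_Lf (b : Ord) {l : List Ord} (hl : (b :: l).IsChain (· > ·)) :
    lv v f b l ≤ Lf v f b := by
  refine le_ciSup (f := fun l : {l : List Ord // (b :: l).IsChain (· > ·)} => lv v f b l.1)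
    ⟨N2 v f, ?_⟩ ⟨l, hl⟩
  rintro _ ⟨l, rfl⟩
  have := lr_le h b l.2 (r := []) (by simp)
  have := rv_nonneg v f b []
  simp only
  linarith

lemma le_Rf (b : Ord) {l : List Ord} (hl : (b :: l).IsChain (· < ·)) :
    rv v f b l ≤ Rf v f b := by
  refine le_ciSup (f := fun l : {l : List Ord // (b :: l).IsChain (· < ·)} => rv v f b l.1)
    ⟨N2 v f, ?_⟩ ⟨l, hl⟩
  rintro _ ⟨l, rfl⟩
  have := lr_le h b (l := []) (by simp) l.2
  have := lv_nonneg v f b []
  simp only
  linarith

lemma Lf_add_Rf_le (b : Ord) : Lf v f b + Rf v f b ≤ N2 v f := by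
  have h1 : Rf v f b ≤ N2 v f - Lf v f b := by
    refine ciSup_le fun r => ?_
    have : Lf v f b ≤ N2 v f - rv v f b r.1 := by
      refine ciSup_le fun l => ?_
      have := lr_le h b l.2 r.2
      linarith
    linarith
  linarith

lemma Lf_start (b : Ord) : v b ^ 2 ≤ Lf v f b := le_Lf h b (l := []) (by simp)

lemma Rf_end (b : Ord) : 2 * f b ^ 2 ≤ Rf v f b := le_Rf h b (l := []) (by simp)

lemma Lf_step {a b : Ord} (hab : a < b) : Lf v f a + G (f b - f a) (v b) ≤ Lf v f b := by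
  have : Lf v f a ≤ Lf v f b - G (f b - f a) (v b) := by
    refine ciSup_le fun l => ?_
    have := le_Lf h b (l := a :: l.1) (List.isChain_cons_cons.2 ⟨hab, l.2⟩)
    simp only [lv] at this
    linarith
  linarith

lemma Rf_step {b c : Ord} (hbc : b < c) : G (f c - f b) (v c) + Rf v f c ≤ Rf v f b := by
  have : Rf v f c ≤ Rf v f b - G (f c - f b) (v c) := by
    refine ciSup_le fun l => ?_
    have := le_Rf h b (l := c :: l.1) (List.isChain_cons_cons.2 ⟨hbc, l.2⟩)
    simp only [rv] at this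
    linarith
  linarith

lemma Lf_mono {a b : Ord} (hab : a ≤ b) : Lf v f a ≤ Lf v f b := by
  rcases hab.eq_or_lt with rfl | hab
  · exact le_rfl
  · have := Lf_step h hab
    have := G_nonneg (f b - f a) (v b)
    linarith

lemma Lf_nonneg (b : Ord) : 0 ≤ Lf v f b := (by positivity : 0 ≤ v b ^ 2).trans (Lf_start h b)

lemma Rf_nonneg (b : Ord) : 0 ≤ Rf v f b :=
  (by positivity : 0 ≤ 2 * f b ^ 2).trans (Rf_end h b)

/-- value of a pair -/
lemma pair_le {b c : Ord} (hbc : b < c) :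
    Lf v f b + G (f c - f b) (v c) + Rf v f c ≤ N2 v f := by
  have := Lf_step h hbc
  have := Lf_add_Rf_le h c
  linarith

lemma last_le (b : Ord) : Lf v f b + 2 * f b ^ 2 ≤ N2 v f := by
  have := Lf_add_Rf_le h b
  have := Rf_end h b
  linarith

lemma start_le (b : Ord) : v b ^ 2 + Rf v f b ≤ N2 v f := by
  have := Lf_add_Rf_le h b
  have := Lf_start h b
  linarith

lemma sq_f_le (b : Ord) : f b ^ 2 ≤ N2 v f := by
  have := last_le h b
  have := Lf_nonneg h b
  nlinarith [sq_nonneg (f b)]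

end bounded

end

end Pool.Agent.Helper372.LJ
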