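import Mathlib
import Pool.Agent.Helper372.LJ.Chains

namespace Pool.Agent.Helper372.LJ

open Order Set Filter Topology

noncomputable section

/-- value of a pair of consecutive elements -/
def W (v f : Ord → ℝ) (b c : Ord) : ℝ := Lf v f b + G (f c - f b) (v c) + Rf v f c

section bounded

variable {v f : Ord → ℝ} (h : Bd v f)
include h

lemma W_le (b c : Ord) (hbc : b < c) : W v f b c ≤ N2 v f := pair_le h hbc

lemma W_le_Nm {a b c : Ord} (hab : a < b) (hbc : b < c) : W v f a c ≤ Nm v f b := by
  have h1 : Rf v f c ≤ Nm v f b - Lf v f a - G (f c - f a) (v c) := by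
    refine ciSup_le fun r => ?_
    have : Lf v f a ≤ Nm v f b - rv v f c r.1 - G (f c - f a) (v c) := by
      refine ciSup_le fun l => ?_
      have hz : (⟨l.1, a, c :: r.1, l.2, List.isChain_cons_cons.2 ⟨hab.trans hbc, r.2⟩⟩ :
          Zip).Avoids b := by
        refine ⟨fun hb => ?_, hab.ne', fun hb => ?_⟩
        · exact absurd (chain_mem_gt l.2 hb) (not_lt.2 hab.le)
        · rcases List.mem_cons.1 hb with rfl | hb
          · exact lt_irrefl _ hbc
          · exact absurd (chain_mem_lt r.2 hb) (not_lt.2 hbc.le)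
      have := Q_le_Nm h _ hz
      simp only [Q, rv] at this
      linarith
    linarith
  unfold W; linarith

lemma last_le_Nm {a b : Ord} (hab : a < b) : Lf v f a + 2 * f a ^ 2 ≤ Nm v f b := by
  have : Lf v f a ≤ Nm v f b - 2 * f a ^ 2 := by
    refine ciSup_le fun l => ?_
    have hz : (⟨l.1, a, [], l.2, by simp⟩ : Zip).Avoids b := by
      refine ⟨fun hb => ?_, hab.ne', by simp⟩
      exact absurd (chain_mem_gt l.2 hb) (not_lt.2 hab.le)
    have := Q_le_Nm h _ hz
    simp only [Q, rv] at this
    linarith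
  linarith

lemma start_le_Nm {b c : Ord} (hbc : b < c) : v c ^ 2 + Rf v f c ≤ Nm v f b := by
  have : Rf v f c ≤ Nm v f b - v c ^ 2 := by
    refine ciSup_le fun r => ?_
    have hz : (⟨[], c, r.1, by simp, r.2⟩ : Zip).Avoids b := by
      refine ⟨by simp, hbc.ne, fun hb => ?_⟩
      exact absurd (chain_mem_lt r.2 hb) (not_lt.2 hbc.le)
    have := Q_le_Nm h _ hz
    simp only [Q, lv] at this
    linarith
  linarith

lemma refocus {b : Ord} : ∀ (l : List Ord) (x : Ord) (r : List Ord),
    (x :: l).IsChain (· > ·) → (x :: r).IsChain (· < ·) → b ∈ l →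
    ∃ d, b < d ∧ d ≤ x ∧ lv v f x l + rv v f x r ≤ W v f b d := by
  intro l
  induction l with
  | nil => intro x r _ _ hb; simp at hb
  | cons a l ih =>
    intro x r hl hr hb
    have hl' := List.isChain_cons_cons.1 hl
    by_cases hab : b = a
    · subst hab
      refine ⟨x, hl'.1, le_rfl, ?_⟩
      have := le_Lf h b hl'.2
      have := le_Rf h x hr
      simp only [lv, W]; linarith
    · have hb' : b ∈ l := by
        rcases List.mem_cons.1 hb with h' | h'
        · exact absurd h' hab
        · exact h'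
      obtain ⟨d, h1, h2, h3⟩ := ih a (x :: r) hl'.2 (List.isChain_cons_cons.2 ⟨hl'.1, hr⟩) hb'
      refine ⟨d, h1, h2.trans (le_of_lt hl'.1), ?_⟩
      simp only [lv, rv] at h3 ⊢
      linarith

/-- A point `x` above `b`: chains through `x` avoid `b` or contain a pair `(b, d)`. -/
lemma through_le {b x : Ord} (hbx : b < x) {K : ℝ} (hK1 : Nm v f b ≤ K)
    (hK2 : ∀ d, b < d → d ≤ x → W v f b d ≤ K) : Lf v f x + Rf v f x ≤ K := by
  have h1 : Rf v f x ≤ K - Lf v f x := by
    refine ciSup_le fun r => ?_
    have : Lf v f x ≤ K - rv v f x r.1 := by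
      refine ciSup_le fun l => ?_
      by_cases hb : b ∈ l.1
      · obtain ⟨d, h1, h2, h3⟩ := refocus h l.1 x r.1 l.2 r.2 hb
        have := hK2 d h1 h2
        linarith
      · have hz : (⟨l.1, x, r.1, l.2, r.2⟩ : Zip).Avoids b :=
          ⟨hb, hbx.ne, fun hb => absurd (chain_mem_lt r.2 hb) (not_lt.2 hbx.le)⟩
        have := Q_le_Nm h _ hz
        simp only [Q] at this
        linarith
    linarith
  linarith

/-- moving the right starting point across an interval without jumps -/
lemma Rf_flat {c c' : Ord} (hcc : c < c') (hv : ∀ d, c ≤ d → d < c' → v d = 0)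
    (hf : ∀ d, c ≤ d → d ≤ c' → f d = f c) : Rf v f c ≤ v c' ^ 2 + Rf v f c' := by
  have key : ∀ (l : List Ord) (d : Ord), c ≤ d → d < c' → (d :: l).IsChain (· < ·) →
      rv v f d l ≤ v c' ^ 2 + Rf v f c' := by
    intro l
    induction l with
    | nil =>
      intro d h1 h2 _
      have := Rf_end h c'
      simp only [rv]
      rw [hf d h1 h2.le]
      rw [hf c' hcc.le le_rfl] at this
      have : 0 ≤ v c' ^ 2 := by positivity
      linarith
    | cons e l ih =>
      intro d h1 h2 hl
      have hl' := List.isChain_cons_cons.1 hl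
      simp only [rv]
      rcases lt_trichotomy e c' with he | he | he
      · have h3 := ih e (h1.trans hl'.1.le) he hl'.2
        rw [hv e (h1.trans hl'.1.le) he, hf e (h1.trans hl'.1.le) he.le, hf d h1 h2.le,
          sub_self, G_zero_left]
        linarith
      · subst he
        have := le_Rf h e hl'.2
        rw [hf e hcc.le le_rfl, hf d h1 h2.le, sub_self, G_zero_left]
        linarith
      · have h3 := le_Rf h c' (l := e :: l) (List.isChain_cons_cons.2 ⟨he, hl'.2⟩)
        simp only [rv] at h3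
        rw [hf c' hcc.le le_rfl] at h3
        rw [hf d h1 h2.le]
        have : 0 ≤ v c' ^ 2 := by positivity
        linarith
  exact ciSup_le fun l => key l.1 c le_rfl hcc l.2

lemma Rf_zero {c : Ord} (hv : ∀ d, c ≤ d → v d = 0) (hf : ∀ d, c ≤ d → f d = 0) :
    Rf v f c = 0 := by
  have key : ∀ (l : List Ord) (d : Ord), c ≤ d → (d :: l).IsChain (· < ·) →
      rv v f d l = 0 := by
    intro l
    induction l with
    | nil => intro d h1 _; simp [rv, hf d h1]
    | cons e l ih =>
      intro d h1 hl
      have hl' := List.isChain_cons_cons.1 hl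
      have h2 := h1.trans hl'.1.le
      simp only [rv, ih e h2 hl'.2, hf e h2, hf d h1, hv e h2, sub_self, G_zero_left]
      norm_num
  apply le_antisymm
  · exact ciSup_le fun l => (key l.1 c le_rfl l.2).le
  · exact Rf_nonneg h c

/-- left limits of the right potential -/
lemma tail_usc (hf : Continuous f) (c : Ord) {ε : ℝ} (hε : 0 < ε) :
    ∀ᶠ d in 𝓝[<] c, Rf v f d ≤ v c ^ 2 + Rf v f c + ε ∧ v d ^ 2 ≤ ε := by
  by_cases hc : c = 0
  · subst hc; simp
  have hc' : ∃ l, l < c := ⟨0, pos_iff_ne_zero.2 hc⟩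
  set S : ℝ := ⨆ d : Iio c, Lf v f d.1 with hS
  have : Nonempty (Iio c) := ⟨⟨0, pos_iff_ne_zero.2 hc⟩⟩
  have hSb : BddAbove (range fun d : Iio c => Lf v f d.1) := by
    refine ⟨N2 v f, ?_⟩
    rintro _ ⟨d, rfl⟩
    have := Lf_add_Rf_le h d.1
    have := Rf_nonneg h d.1
    simp only; linarith
  have hLS : ∀ d, d < c → Lf v f d ≤ S := fun d hd => le_ciSup hSb ⟨d, hd⟩
  obtain ⟨⟨η, hη⟩, hηS⟩ := exists_lt_of_lt_ciSup (show S - ε / 2 < S by linarith)
  simp only at hηS
  set B : ℝ := Real.sqrt (N2 v f) with hB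
  have hBn : 0 ≤ B := Real.sqrt_nonneg _
  have hfB : ∀ b, |f b| ≤ B := fun b => Real.abs_le_sqrt (sq_f_le h b)
  -- small error
  obtain ⟨ρ, hρ, hρ'⟩ : ∃ ρ > 0, 12 * B * ρ + 3 * ρ ^ 2 ≤ ε / 2 := by
    refine ⟨min 1 (ε / (2 * (12 * B + 3))), by positivity, ?_⟩
    set ρ := min 1 (ε / (2 * (12 * B + 3))) with hρd
    have h1 : ρ ≤ 1 := min_le_left _ _
    have h2 : ρ ≤ ε / (2 * (12 * B + 3)) := min_le_right _ _
    have h0 : 0 ≤ ρ := by positivity
    have h3 : ρ * (2 * (12 * B + 3)) ≤ ε := by
      rwa [le_div_iff₀ (by positivity)] at h2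
    nlinarith
  have hcont : ∀ᶠ d in 𝓝 c, |f d - f c| < ρ := by
    have := (hf.tendsto c).sub_const (f c)
    rw [sub_self] at this
    have := this.abs
    rw [abs_zero] at this
    exact this.eventually (gt_mem_nhds hρ)
  obtain ⟨η', hη', hη'c⟩ := (SuccOrder.hasBasis_nhds_Ioc_of_exists_lt hc').mem_iff.1 hcont
  have hev : Ioo (max η η') c ∈ 𝓝[<] c := Ioo_mem_nhdsLT (max_lt hη hη')
  have key : ∀ (l : List Ord) (d : Ord), max η η' < d → d < c → (d :: l).IsChain (· < ·) →
      rv v f d l ≤ (S - Lf v f d) + v c ^ 2 + Rf v f c + ε / 2 := by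
    intro l
    induction l with
    | nil =>
      intro d h1 h2 _
      have e1 : |f d - f c| < ρ := hη'c ⟨(le_max_right _ _).trans_lt h1, h2.le⟩
      have h3 := hLS d h2
      have h4 := Rf_end h c
      have h5 : 2 * f d ^ 2 ≤ 2 * f c ^ 2 + ε / 2 := by
        have e2 : f d = f c + (f d - f c) := by ring
        have e3 : f c * (f d - f c) ≤ B * ρ := by
          calc f c * (f d - f c) ≤ |f c * (f d - f c)| := le_abs_self _
            _ = |f c| * |f d - f c| := abs_mul _ _
            _ ≤ B * ρ := mul_le_mul (hfB c) e1.le (abs_nonneg _) hBn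
        have e4 : (f d - f c) ^ 2 ≤ ρ ^ 2 := by
          rw [← sq_abs]; exact pow_le_pow_left₀ (abs_nonneg _) e1.le 2
        have e5 : 0 ≤ B * ρ := by positivity
        have e6 : f d ^ 2 = f c ^ 2 + 2 * (f c * (f d - f c)) + (f d - f c) ^ 2 := by ring
        nlinarith
      have : 0 ≤ v c ^ 2 := by positivity
      simp only [rv]; linarith
    | cons e l ih =>
      intro d h1 h2 hl
      have hl' := List.isChain_cons_cons.1 hl
      have e1 : |f d - f c| < ρ := hη'c ⟨(le_max_right _ _).trans_lt h1, h2.le⟩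
      have e1' : |f c - f d| < ρ := by rwa [abs_sub_comm]
      have e4 : (f c - f d) ^ 2 ≤ ρ ^ 2 := by
        rw [← sq_abs]; exact pow_le_pow_left₀ (abs_nonneg _) e1'.le 2
      have hS0 := hLS d h2
      have hv0 : 0 ≤ v c ^ 2 := by positivity
      simp only [rv]
      rcases lt_trichotomy e c with he | he | he
      · have h3 := ih e (h1.trans hl'.1) he hl'.2
        have h4 := Lf_step h (show d < e from hl'.1)
        linarith
      · subst he
        have h3 := le_Rf h e hl'.2
        have h4 := G_le' (f e - f d) (v e)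
        have : 0 ≤ B * ρ := by positivity
        linarith
      · have h3 := le_Rf h c (l := e :: l) (List.isChain_cons_cons.2 ⟨he, hl'.2⟩)
        simp only [rv] at h3
        have h4 := G_shift (f e - f c) (f c - f d) (v e)
        rw [show f e - f c + (f c - f d) = f e - f d by ring] at h4
        have h5 : |f e - f c| ≤ 2 * B := by
          calc |f e - f c| ≤ |f e| + |f c| := abs_sub _ _
            _ ≤ 2 * B := by linarith [hfB e, hfB c]
        have h6 : 6 * |f e - f c| * |f c - f d| ≤ 12 * B * ρ := by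
          have := mul_le_mul h5 e1'.le (abs_nonneg _) (by positivity)
          linarith
        linarith
  filter_upwards [hev] with d hd
  have hηd : η < d := (le_max_left _ _).trans_lt hd.1
  constructor
  · refine ciSup_le fun l => ?_
    have h1 := key l.1 d hd.1 hd.2 l.2
    have h2 := Lf_mono h hηd.le
    linarith
  · have h1 := Lf_step h hηd
    have h2 := hLS d hd.2
    have h3 := G_ge (f d - f η) (v d)
    have : 0 ≤ (f d - f η) ^ 2 := by positivity
    linarith

end bounded

/-- constancy on intervals without jumps -/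
lemma flat {v f : Ord → ℝ} (hf : Continuous f) (hvf : ∀ c, v c = 0 ↔ f c = f (Order.succ c))
    {b c : Ord}
    (hv : ∀ d, b ≤ d → d < c → v d = 0) : ∀ d, b ≤ d → d ≤ c → f d = f b := by
  intro d
  induction d using WellFoundedLT.induction with
  | ind d ih =>
    intro h1 h2
    rcases h1.eq_or_lt with rfl | h1
    · rfl
    by_cases hd : IsSuccLimit d
    · have hlub : IsLUB (Iio d) d := hd.isLUB_Iio
      have hne : (𝓝[<] d).NeBot := hlub.nhdsWithin_neBot ⟨b, h1⟩
      have t1 : Tendsto f (𝓝[<] d) (𝓝 (f d)) := (hf.tendsto d).mono_left nhdsWithin_le_nhds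
      have t2 : Tendsto f (𝓝[<] d) (𝓝 (f b)) := by
        refine (tendsto_const_nhds (x := f b)).congr' ?_
        filter_upwards [Ioo_mem_nhdsLT h1] with e he
        exact (ih e he.2 he.1.le (he.2.le.trans h2)).symm
      exact tendsto_nhds_unique t1 t2
    · have : ¬ IsSuccPrelimit d := fun hp => hd ⟨fun hm => absurd (hm (zero_le : (0 : Ord) ≤ d))
        (not_le.2 ((zero_le : (0 : Ord) ≤ b).trans_lt h1)), hp⟩
      obtain ⟨e, he⟩ := not_isSuccPrelimit_iff.1 this
      have hes : Order.succ e = d := he.succ_eq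
      have hed : e < d := he.lt
      have hbe : b ≤ e := by
        rw [← hes] at h1
        exact Order.lt_succ_iff.1 h1
      have h3 := ih e hed hbe (hed.le.trans h2)
      have h4 := (hvf e).1 (hv e hbe (hed.trans_le h2))
      rw [hes] at h4
      rw [← h4, h3]



end

end Pool.Agent.Helper372.LJ
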