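import Mathlib
import Pool.Agent.Helper372.LJ.Det

namespace Pool.Agent.Helper372.LJ

open Order Set Filter Topology

noncomputable section

lemma nhds_eq_sup (c : Ord) : 𝓝 c = pure c ⊔ 𝓝[<] c := by
  rw [← SuccOrder.nhdsLE_eq_nhds c, ← Iio_insert, nhdsWithin_insert]

lemma compact_gap {X : Type*} [TopologicalSpace X] {K : Set X} (hK : IsCompact K) (g : X → ℝ)
    (N : ℝ) (h : ∀ x ∈ K, ∃ δ > 0, ∀ᶠ y in 𝓝[K] x, g y ≤ N - δ) :
    ∃ δ > 0, ∀ x ∈ K, g x ≤ N - δ := by
  refine hK.induction_on (p := fun s => ∃ δ > 0, ∀ x ∈ s, g x ≤ N - δ) ⟨1, one_pos, by simp⟩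
    ?_ ?_ ?_
  · rintro s t hst ⟨δ, h0, h1⟩
    exact ⟨δ, h0, fun x hx => h1 x (hst hx)⟩
  · rintro s t ⟨δ, h0, h1⟩ ⟨δ', h0', h1'⟩
    refine ⟨min δ δ', lt_min h0 h0', ?_⟩
    rintro x (hx | hx)
    · linarith [h1 x hx, min_le_left δ δ']
    · linarith [h1' x hx, min_le_right δ δ']
  · intro x hx
    obtain ⟨δ, h0, h1⟩ := h x hx
    exact ⟨_, h1, δ, h0, fun y hy => hy⟩

lemma exists_first {v : Ord → ℝ} {c e : Ord} (hce : c ≤ e) (he : v e ≠ 0) :
    ∃ e', c ≤ e' ∧ e' ≤ e ∧ v e' ≠ 0 ∧ ∀ x, c ≤ x → x < e' → v x = 0 := by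
  obtain ⟨m, ⟨hm1, hm2⟩, hm3⟩ := WellFounded.has_min (wellFounded_lt (α := Ord))
    {x | c ≤ x ∧ v x ≠ 0} ⟨e, hce, he⟩
  refine ⟨m, hm1, ?_, hm2, ?_⟩
  · exact not_lt.1 fun hlt => hm3 e ⟨hce, he⟩ hlt
  · intro x h1 h2
    by_contra h3
    exact hm3 x ⟨h1, h3⟩ h2

section bounded

variable {v f : Ord → ℝ} (h : Bd v f) (hf : Continuous f)
include h hf

lemma left_usc (b c : Ord) {ε : ℝ} (hε : 0 < ε) :
    ∀ᶠ p in 𝓝 b ×ˢ 𝓝[<] c,
      W v f p.1 p.2 ≤ Lf v f b + (f c - f b) ^ 2 + v c ^ 2 + Rf v f c + ε := by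
  have h1 : ∀ᶠ b' in 𝓝 b, Lf v f b' ≤ Lf v f b := by
    filter_upwards [SuccOrder.nhdsLE_eq_nhds b ▸ self_mem_nhdsWithin (s := Iic b)] with b' hb'
    exact Lf_mono h hb'
  have h2 := tail_usc h hf c (show 0 < ε / 9 by positivity)
  have h3 : Tendsto (fun p : Ord × Ord => (f p.2 - f p.1) ^ 2) (𝓝 b ×ˢ 𝓝[<] c)
      (𝓝 ((f c - f b) ^ 2)) := by
    have t1 : Tendsto (fun p : Ord × Ord => f p.1) (𝓝 b ×ˢ 𝓝[<] c) (𝓝 (f b)) :=
      (hf.tendsto b).comp tendsto_fst
    have t2 : Tendsto (fun p : Ord × Ord => f p.2) (𝓝 b ×ˢ 𝓝[<] c) (𝓝 (f c)) :=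
      ((hf.tendsto c).mono_left nhdsWithin_le_nhds).comp tendsto_snd
    exact (t2.sub t1).pow 2
  have h4 := h3.eventually (gt_mem_nhds (show (f c - f b) ^ 2 < (f c - f b) ^ 2 + ε / 9 by
    linarith))
  filter_upwards [h1.prod_inl (𝓝[<] c), h2.prod_inr (𝓝 b), h4] with p p1 p2 p3
  have g1 := G_le (f p.2 - f p.1) (v p.2)
  unfold W
  linarith [p2.1, p2.2]

lemma pair_usc (b c : Ord) {ε : ℝ} (hε : 0 < ε) :
    ∀ᶠ p in 𝓝 (b, c), W v f p.1 p.2 ≤ W v f b c + ε := by
  rw [nhds_prod_eq, nhds_eq_sup c, Filter.prod_sup, eventually_sup]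
  constructor
  · have h1 : ∀ᶠ b' in 𝓝 b, Lf v f b' ≤ Lf v f b := by
      filter_upwards [SuccOrder.nhdsLE_eq_nhds b ▸ self_mem_nhdsWithin (s := Iic b)] with b' hb'
      exact Lf_mono h hb'
    have h2 : Tendsto (fun b' => G (f c - f b') (v c)) (𝓝 b) (𝓝 (G (f c - f b) (v c))) := by
      have : Continuous (fun b' => G (f c - f b') (v c)) :=
        continuous_G.comp ((continuous_const.sub hf).prodMk continuous_const)
      exact this.tendsto b
    have h3 := h2.eventually (gt_mem_nhds (show G (f c - f b) (v c) < G (f c - f b) (v c) + ε by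
      linarith))
    rw [prod_pure, eventually_map]
    filter_upwards [h1, h3] with b' p1 p2
    unfold W
    linarith
  · filter_upwards [left_usc h hf b c hε] with p hp
    have := G_ge (f c - f b) (v c)
    unfold W at hp ⊢
    linarith

lemma last_usc (b : Ord) {ε : ℝ} (hε : 0 < ε) :
    ∀ᶠ b' in 𝓝 b, Lf v f b' + 2 * f b' ^ 2 ≤ Lf v f b + 2 * f b ^ 2 + ε := by
  have h1 : ∀ᶠ b' in 𝓝 b, Lf v f b' ≤ Lf v f b := by
    filter_upwards [SuccOrder.nhdsLE_eq_nhds b ▸ self_mem_nhdsWithin (s := Iic b)] with b' hb'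
    exact Lf_mono h hb'
  have h2 : Tendsto (fun b' => 2 * f b' ^ 2) (𝓝 b) (𝓝 (2 * f b ^ 2)) :=
    ((hf.tendsto b).pow 2).const_mul 2
  have h3 := h2.eventually (gt_mem_nhds (show 2 * f b ^ 2 < 2 * f b ^ 2 + ε by linarith))
  filter_upwards [h1, h3] with b' p1 p2
  linarith

end bounded

section exactness

variable {v f : Ord → ℝ} (h : Bd v f) (hf : Continuous f)
  (hvf : ∀ c, v c = 0 ↔ f c = f (Order.succ c)) {κ : Ord} (hκ : ∀ d, κ ≤ d → f d = 0)

include hf hvf hκ in
lemma zero_of_no_jump {c : Ord} (hv : ∀ d, c ≤ d → v d = 0) : ∀ d, c ≤ d → f d = 0 := by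
  have h1 : ∀ d, c ≤ d → f d = f c := fun d hd =>
    flat hf hvf (b := c) (c := d) (fun e he _ => hv e he) d hd le_rfl
  have h2 := h1 (max c κ) (le_max_left _ _)
  rw [hκ _ (le_max_right _ _)] at h2
  intro d hd
  rw [h1 d hd, ← h2]

include h hf hvf hκ in
lemma exact_right {b c : Ord} (hbc : b < c) (hW : W v f b c = N2 v f) (hx : f c ≠ f b) :
    v c ≠ 0 := by
  intro hvc
  have hx' : f c - f b ≠ 0 := sub_ne_zero.2 hx
  by_cases hj : ∃ e, c ≤ e ∧ v e ≠ 0
  · obtain ⟨e, hce, hve⟩ := hj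
    obtain ⟨c', h1, -, h3, h4⟩ := exists_first hce hve
    have hcc : c < c' := lt_of_le_of_ne h1 (by rintro rfl; exact h3 hvc)
    have hfl := flat hf hvf (b := c) (c := c') h4
    have h5 := Rf_flat h hcc h4 hfl
    have h6 := W_le h b c' (hbc.trans hcc)
    have h7 := G_gt hx' h3
    unfold W at h6 hW
    rw [hfl c' hcc.le le_rfl] at h6
    rw [hvc, G_zero_right] at hW
    linarith
  · push Not at hj
    have hf0 := zero_of_no_jump hf hvf hκ (c := c) (fun d hd => hj d hd)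
    have h5 := Rf_zero h hj hf0
    have h6 := last_le h b
    unfold W at hW
    rw [hvc, G_zero_right, h5, hf0 c le_rfl] at hW
    rw [hf0 c le_rfl] at hx
    have : 0 < f b ^ 2 := by
      have : f b ≠ 0 := fun h => hx h.symm
      positivity
    nlinarith

include h hf hvf in
lemma exact_left {b c : Ord} (hbc : b < c) (hW : W v f b c = N2 v f) (hx : f c ≠ f b) :
    v b ≠ 0 := by
  intro hvb
  by_cases hj : ∃ e, b ≤ e ∧ e < c ∧ v e ≠ 0
  · obtain ⟨e, hbe, hec, hve⟩ := hj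
    obtain ⟨b', h1, h2, h3, h4⟩ := exists_first hbe hve
    have hbb : b < b' := lt_of_le_of_ne h1 (by rintro rfl; exact h3 hvb)
    have hfl := flat hf hvf (b := b) (c := b') h4
    have h5 := Lf_step h hbb
    rw [hfl b' hbb.le le_rfl, sub_self, G_zero_left] at h5
    have h6 := W_le h b' c (h2.trans_lt hec)
    unfold W at h6 hW
    rw [hfl b' hbb.le le_rfl] at h6
    have : 0 < v b' ^ 2 := by positivity
    linarith
  · push Not at hj
    exact hx (flat hf hvf (b := b) (c := c) (fun d h1 h2 => hj d h1 h2) c hbc.le le_rfl)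

include h hf hvf hκ in
lemma exact_last {b : Ord} (hW : Lf v f b + 2 * f b ^ 2 = N2 v f) (hx : f b ≠ 0) :
    v b ≠ 0 := by
  intro hvb
  by_cases hj : ∃ e, b ≤ e ∧ v e ≠ 0
  · obtain ⟨e, hbe, hve⟩ := hj
    obtain ⟨b', h1, h2, h3, h4⟩ := exists_first hbe hve
    have hbb : b < b' := lt_of_le_of_ne h1 (by rintro rfl; exact h3 hvb)
    have hfl := flat hf hvf (b := b) (c := b') h4
    have h5 := Lf_step h hbb
    rw [hfl b' hbb.le le_rfl, sub_self, G_zero_left] at h5
    have h6 := last_le h b'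
    rw [hfl b' hbb.le le_rfl] at h6
    have : 0 < v b' ^ 2 := by positivity
    linarith
  · push Not at hj
    exact hx (zero_of_no_jump hf hvf hκ (c := b) hj b le_rfl)

variable (hnt : ∀ b, v b ≠ 0 → Lf v f b + Rf v f b = N2 v f → Nm v f b < N2 v f)

include h hf hvf hnt in
lemma no_inner {b d e : Ord} (hbd : b < d) (hW : W v f b d = N2 v f) (hde : d ≤ e)
    (hve : v e ≠ 0) (hmin : ∀ x, d ≤ x → x < e → v x = 0) (hNm : Nm v f e = N2 v f) : False := by
  have h0 : N2 v f ≤ Lf v f d + Rf v f d := by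
    have := Lf_step h hbd
    unfold W at hW
    linarith
  rcases hde.eq_or_lt with rfl | hde
  · exact (hnt d hve (le_antisymm (Lf_add_Rf_le h d) h0)).ne hNm
  · have hfl := flat hf hvf (b := d) (c := e) hmin
    have h1 := Rf_flat h hde hmin hfl
    have h2 := Lf_step h hde
    rw [hfl e hde.le le_rfl, sub_self, G_zero_left] at h2
    exact (hnt e hve (le_antisymm (Lf_add_Rf_le h e) (by linarith))).ne hNm

include h hf hvf hκ hnt in
lemma inner_lt {b d c : Ord} (hbd : b < d) (hdc : d < c) (hW : W v f b c = N2 v f)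
    (hx : f c ≠ f b) : W v f b d < N2 v f := by
  refine lt_of_le_of_ne (W_le h b d hbd) fun hWd => ?_
  by_cases hj : ∃ e, d ≤ e ∧ e < c ∧ v e ≠ 0
  · obtain ⟨e, hde, hec, hve⟩ := hj
    obtain ⟨e', h1, h2, h3, h4⟩ := exists_first hde hve
    have h5 : e' < c := h2.trans_lt hec
    refine no_inner h hf hvf hnt hbd hWd h1 h3 h4 (le_antisymm (Nm_le_N2 h _) ?_)
    rw [← hW]
    exact W_le_Nm h (hbd.trans_le h1) h5
  · push Not at hj
    have h1 := flat hf hvf (b := d) (c := c) (fun x h1 h2 => hj x h1 h2) c hdc.le le_rfl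
    rw [h1] at hx
    exact exact_right h hf hvf hκ hbd hWd hx (hj d le_rfl hdc)

include h hf hvf hκ hnt in
lemma inner_lt' {b d : Ord} (hbd : b < d) (hW : Lf v f b + 2 * f b ^ 2 = N2 v f)
    (hx : f b ≠ 0) : W v f b d < N2 v f := by
  refine lt_of_le_of_ne (W_le h b d hbd) fun hWd => ?_
  by_cases hj : ∃ e, d ≤ e ∧ v e ≠ 0
  · obtain ⟨e, hde, hve⟩ := hj
    obtain ⟨e', h1, h2, h3, h4⟩ := exists_first hde hve
    refine no_inner h hf hvf hnt hbd hWd h1 h3 h4 (le_antisymm (Nm_le_N2 h _) ?_)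
    rw [← hW]
    exact last_le_Nm h (hbd.trans_le h1)
  · push Not at hj
    have h1 := zero_of_no_jump hf hvf hκ (c := d) hj d le_rfl
    refine exact_right h hf hvf hκ hbd hWd ?_ (hj d le_rfl)
    rw [h1]; exact hx.symm

include h hf hvf hκ hnt in
/-- gap below an exact pair -/
lemma gap_pair {b c : Ord} (hbc : b < c) (hW : W v f b c = N2 v f) (hx : f c ≠ f b) :
    ∃ δ > 0, ∀ d, b < d → d < c → W v f b d ≤ N2 v f - δ := by
  have hvc := exact_right h hf hvf hκ hbc hW hx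
  have hstr := G_gt (sub_ne_zero.2 hx) hvc
  obtain ⟨δ, h0, h1⟩ := compact_gap (K := Icc (Order.succ b) c) isCompact_Icc
    (fun d => if d < c then W v f b d else N2 v f - 1) (N2 v f) (by
      intro d hd
      have hbd : b < d := (Order.lt_succ b).trans_le hd.1
      rcases hd.2.eq_or_lt with rfl | hdc
      · -- at the right end
        set τ := G (f d - f b) (v d) - ((f d - f b) ^ 2 + v d ^ 2) with hτ
        have hτ0 : 0 < τ := by rw [hτ]; linarith
        refine ⟨min 1 (τ / 2), by positivity, ?_⟩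
        apply Filter.Eventually.filter_mono nhdsWithin_le_nhds
        rw [nhds_eq_sup d, eventually_sup]
        constructor
        · rw [eventually_pure, if_neg (lt_irrefl d)]
          linarith [min_le_left 1 (τ / 2)]
        · have := left_usc h hf b d (show 0 < τ / 2 by positivity)
          have h2 := this.curry
          rw [nhds_eq_sup b, eventually_sup, eventually_pure] at h2
          filter_upwards [h2.1, self_mem_nhdsWithin] with e he hed
          rw [if_pos (show e < d from hed)]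
          unfold W at hW
          linarith [min_le_right 1 (τ / 2)]
      · have hlt := inner_lt h hf hvf hκ hnt hbd hdc hW hx
        refine ⟨(N2 v f - W v f b d) / 2, by linarith, ?_⟩
        apply Filter.Eventually.filter_mono nhdsWithin_le_nhds
        have h2 := pair_usc h hf b d (show 0 < (N2 v f - W v f b d) / 2 by linarith)
        rw [nhds_prod_eq, nhds_eq_sup b] at h2
        have h3 := (h2.filter_mono (Filter.prod_mono_left _ le_sup_left)).curry
        rw [eventually_pure] at h3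
        have h4 : ∀ᶠ e in 𝓝 d, e < c := Iio_mem_nhds hdc
        filter_upwards [h3, h4] with e he hec
        rw [if_pos hec]
        linarith)
  refine ⟨δ, h0, fun d hbd hdc => ?_⟩
  have := h1 d ⟨Order.succ_le_of_lt hbd, hdc.le⟩
  rwa [if_pos hdc] at this

include hvf hκ in
lemma v_zero {d : Ord} (hd : κ ≤ d) : v d = 0 := by
  rw [hvf, hκ d hd, hκ _ (hd.trans (Order.le_succ d))]

include h hvf hκ in
lemma W_far {b d : Ord} (hd : κ ≤ d) : W v f b d = Lf v f b + f b ^ 2 := by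
  have h1 : Rf v f d = 0 := Rf_zero h (fun e he => v_zero hvf hκ (hd.trans he))
    (fun e he => hκ e (hd.trans he))
  unfold W
  rw [h1, v_zero hvf hκ hd, hκ d hd, G_zero_right]
  ring

include h hf hvf hκ hnt in
lemma gap_last {b : Ord} (hW : Lf v f b + 2 * f b ^ 2 = N2 v f) (hx : f b ≠ 0) :
    ∃ δ > 0, ∀ d, b < d → W v f b d ≤ N2 v f - δ := by
  obtain ⟨δ, h0, h1⟩ := compact_gap (K := Icc (Order.succ b) κ) isCompact_Icc
    (fun d => W v f b d) (N2 v f) (by
      intro d hd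
      have hbd : b < d := (Order.lt_succ b).trans_le hd.1
      have hlt := inner_lt' h hf hvf hκ hnt hbd hW hx
      refine ⟨(N2 v f - W v f b d) / 2, by linarith, ?_⟩
      apply Filter.Eventually.filter_mono nhdsWithin_le_nhds
      have h2 := pair_usc h hf b d (show 0 < (N2 v f - W v f b d) / 2 by linarith)
      rw [nhds_prod_eq, nhds_eq_sup b] at h2
      have h3 := (h2.filter_mono (Filter.prod_mono_left _ le_sup_left)).curry
      rw [eventually_pure] at h3
      filter_upwards [h3] with e he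
      linarith)
  refine ⟨min δ (f b ^ 2), by positivity, fun d hbd => ?_⟩
  rcases le_total d κ with hd | hd
  · have := h1 d ⟨Order.succ_le_of_lt hbd, hd⟩
    linarith [min_le_left δ (f b ^ 2)]
  · rw [W_far h hvf hκ hd]
    linarith [min_le_right δ (f b ^ 2)]

end exactness

end

end Pool.Agent.Helper372.LJ
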