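import Mathlib
import Pool.Agent.Helper372.LJ.Det2

namespace Pool.Agent.Helper372.LJ

open Order Set Filter Topology

noncomputable section

section exactness

variable {v f : Ord → ℝ} (h : Bd v f) (hf : Continuous f)
  (hvf : ∀ c, v c = 0 ↔ f c = f (Order.succ c)) {κ : Ord} (hκ : ∀ d, κ ≤ d → f d = 0)
  (hnt : ∀ b, v b ≠ 0 → Lf v f b + Rf v f b = N2 v f → Nm v f b < N2 v f)

include h hf hvf hκ hnt in
/-- an exact pair with a nonzero increment is isolated -/
lemma isolated_pair {α b c : Ord} (hbα : b ≤ α) (hαc : α < c) (hW : W v f b c = N2 v f)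
    (hx : f c ≠ f b) :
    ∃ δ > 0, (∀ b' c', b' ≤ α → α < c' → (b', c') ≠ (b, c) → W v f b' c' ≤ N2 v f - δ) ∧
      (∀ b', b' ≤ α → Lf v f b' + 2 * f b' ^ 2 ≤ N2 v f - δ) ∧
      (∀ c', α < c' → v c' ^ 2 + Rf v f c' ≤ N2 v f - δ) := by
  have hbc : b < c := hbα.trans_lt hαc
  have hvb := exact_left h hf hvf hbc hW hx
  have hvc := exact_right h hf hvf hκ hbc hW hx
  have eb : Lf v f b + Rf v f b = N2 v f := by
    refine le_antisymm (Lf_add_Rf_le h b) ?_
    have := Rf_step h hbc
    unfold W at hW; linarith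
  have ec : Lf v f c + Rf v f c = N2 v f := by
    refine le_antisymm (Lf_add_Rf_le h c) ?_
    have := Lf_step h hbc
    unfold W at hW; linarith
  have n1 := hnt b hvb eb
  have n2 := hnt c hvc ec
  obtain ⟨δ3, h3, h3'⟩ := gap_pair h hf hvf hκ hnt hbc hW hx
  set δ := min (N2 v f - Nm v f b) (min (N2 v f - Nm v f c) δ3) with hδ
  have d1 : δ ≤ N2 v f - Nm v f b := min_le_left _ _
  have d2 : δ ≤ N2 v f - Nm v f c := (min_le_right _ _).trans (min_le_left _ _)
  have d3 : δ ≤ δ3 := (min_le_right _ _).trans (min_le_right _ _)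
  have hδ0 : 0 < δ := lt_min (by linarith) (lt_min (by linarith) h3)
  refine ⟨δ, hδ0, ?_, ?_, ?_⟩
  · intro b' c' hb' hc' hne
    rcases lt_trichotomy b' b with hbb | hbb | hbb
    · have := W_le_Nm h hbb (hbα.trans_lt hc')
      linarith
    · subst hbb
      have hcc : c' ≠ c := fun e => hne (by rw [e])
      rcases lt_or_gt_of_ne hcc with hcc | hcc
      · have := h3' c' (hbα.trans_lt hc') hcc
        linarith
      · have := W_le_Nm h hbc hcc
        linarith
    · have h5 : Lf v f b' + Rf v f b' ≤ N2 v f - δ :=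
        through_le h hbb (by linarith) fun d h1 h2 => by
          have := h3' d h1 (h2.trans_lt (hb'.trans_lt hαc))
          linarith
      have := Rf_step h (hb'.trans_lt hc')
      unfold W; linarith
  · intro b' hb'
    have := last_le_Nm h (hb'.trans_lt hαc)
    linarith
  · intro c' hc'
    have := start_le_Nm h (hbα.trans_lt hc')
    linarith

include h hf hvf hκ hnt in
lemma isolated_last {α b : Ord} (hbα : b ≤ α) (hW : Lf v f b + 2 * f b ^ 2 = N2 v f)
    (hx : f b ≠ 0) :
    ∃ δ > 0, (∀ b' c', b' ≤ α → α < c' → W v f b' c' ≤ N2 v f - δ) ∧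
      (∀ b', b' ≤ α → b' ≠ b → Lf v f b' + 2 * f b' ^ 2 ≤ N2 v f - δ) ∧
      (∀ c', α < c' → v c' ^ 2 + Rf v f c' ≤ N2 v f - δ) := by
  have hvb := exact_last h hf hvf hκ hW hx
  have eb : Lf v f b + Rf v f b = N2 v f := by
    refine le_antisymm (Lf_add_Rf_le h b) ?_
    have := Rf_end h b
    linarith
  have n1 := hnt b hvb eb
  obtain ⟨δ3, h3, h3'⟩ := gap_last h hf hvf hκ hnt hW hx
  set δ := min (N2 v f - Nm v f b) δ3 with hδ
  have d1 : δ ≤ N2 v f - Nm v f b := min_le_left _ _
  have d3 : δ ≤ δ3 := min_le_right _ _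
  have hδ0 : 0 < δ := lt_min (by linarith) h3
  have hthr : ∀ b', b < b' → Lf v f b' + Rf v f b' ≤ N2 v f - δ := fun b' hbb =>
    through_le h hbb (by linarith) fun d h1 h2 => by
      have := h3' d h1
      linarith
  refine ⟨δ, hδ0, ?_, ?_, ?_⟩
  · intro b' c' hb' hc'
    rcases lt_trichotomy b' b with hbb | hbb | hbb
    · have := W_le_Nm h hbb (hbα.trans_lt hc')
      linarith
    · subst hbb
      have := h3' c' (hbα.trans_lt hc')
      linarith
    · have := hthr b' hbb
      have := Rf_step h (hb'.trans_lt hc')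
      unfold W; linarith
  · intro b' hb' hne
    rcases lt_or_gt_of_ne hne with hbb | hbb
    · have := last_le_Nm h hbb
      linarith
    · have := hthr b' hbb
      have := Rf_end h b'
      linarith
  · intro c' hc'
    have := start_le_Nm h (hbα.trans_lt hc')
    linarith

include h hf hvf hκ in
/-- compactness for straddling pairs -/
lemma compact_pairs (α : Ord) {ε : ℝ} (hε : 0 < ε)
    (hno : ∀ b c, b ≤ α → α < c → ε ≤ |f c - f b| → W v f b c < N2 v f) :
    ∃ δ > 0, ∀ b c, b ≤ α → α < c → ε ≤ |f c - f b| → W v f b c ≤ N2 v f - δ := by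
  have hcl : IsClosed {p : Ord × Ord | ε ≤ |f p.2 - f p.1|} :=
    isClosed_le continuous_const ((hf.comp continuous_snd).sub (hf.comp continuous_fst)).abs
  have hK : IsCompact ((Icc 0 α ×ˢ Icc (Order.succ α) κ) ∩ {p : Ord × Ord | ε ≤ |f p.2 - f p.1|}) :=
    (isCompact_Icc.prod isCompact_Icc).inter_right hcl
  obtain ⟨δ, h0, h1⟩ := compact_gap hK (fun p => W v f p.1 p.2) (N2 v f) (by
    rintro ⟨b, c⟩ ⟨⟨hb, hc⟩, hx⟩
    have hlt := hno b c hb.2 ((Order.lt_succ α).trans_le hc.1) hx
    refine ⟨(N2 v f - W v f b c) / 2, by linarith, ?_⟩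
    apply Filter.Eventually.filter_mono nhdsWithin_le_nhds
    have h2 := pair_usc h hf b c (show 0 < (N2 v f - W v f b c) / 2 by linarith)
    filter_upwards [h2] with p hp
    linarith)
  refine ⟨min δ (ε ^ 2), by positivity, fun b c hb hc hx => ?_⟩
  rcases le_total c κ with hcκ | hcκ
  · have := h1 (b, c) ⟨⟨⟨zero_le, hb⟩, ⟨Order.succ_le_of_lt hc, hcκ⟩⟩, hx⟩
    simp only at this
    linarith [min_le_left δ (ε ^ 2)]
  · rw [W_far h hvf hκ hcκ]
    have h2 := last_le h b
    rw [hκ c hcκ, zero_sub, abs_neg] at hx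
    have h3 : ε ^ 2 ≤ f b ^ 2 := by
      rw [← sq_abs (f b)]; exact pow_le_pow_left₀ hε.le hx 2
    linarith [min_le_right δ (ε ^ 2)]

include h hf in
lemma compact_last (α : Ord) {ε : ℝ}
    (hno : ∀ b, b ≤ α → ε ≤ |f b| → Lf v f b + 2 * f b ^ 2 < N2 v f) :
    ∃ δ > 0, ∀ b, b ≤ α → ε ≤ |f b| → Lf v f b + 2 * f b ^ 2 ≤ N2 v f - δ := by
  have hcl : IsClosed {b : Ord | ε ≤ |f b|} := isClosed_le continuous_const hf.abs
  have hK : IsCompact (Icc 0 α ∩ {b : Ord | ε ≤ |f b|}) := isCompact_Icc.inter_right hcl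
  obtain ⟨δ, h0, h1⟩ := compact_gap hK (fun b => Lf v f b + 2 * f b ^ 2) (N2 v f) (by
    rintro b ⟨hb, hx⟩
    have hlt := hno b hb.2 hx
    refine ⟨(N2 v f - (Lf v f b + 2 * f b ^ 2)) / 2, by linarith, ?_⟩
    apply Filter.Eventually.filter_mono nhdsWithin_le_nhds
    have h2 := last_usc h hf b
      (show 0 < (N2 v f - (Lf v f b + 2 * f b ^ 2)) / 2 by linarith)
    filter_upwards [h2] with p hp
    linarith)
  exact ⟨δ, h0, fun b hb hx => h1 b ⟨⟨zero_le, hb⟩, hx⟩⟩

end exactness

/-- shifting `f` by `d` on `[0, α]` -/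
def shift (f : Ord → ℝ) (α : Ord) (d : ℝ) : Ord → ℝ := fun b => if b ≤ α then f b + d else f b

lemma shift_le {f : Ord → ℝ} {α : Ord} {d : ℝ} {b : Ord} (hb : b ≤ α) :
    shift f α d b = f b + d := if_pos hb

lemma shift_gt {f : Ord → ℝ} {α : Ord} {d : ℝ} {b : Ord} (hb : α < b) :
    shift f α d b = f b := if_neg (not_le.2 hb)

lemma lv_shift (v f : Ord → ℝ) (α : Ord) (d : ℝ) : ∀ (l : List Ord) (x : Ord), x ≤ α →
    (x :: l).IsChain (· > ·) → lv v (shift f α d) x l = lv v f x l := by
  intro l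
  induction l with
  | nil => intro x _ _; rfl
  | cons a l ih =>
    intro x hx hl
    have hl' := List.isChain_cons_cons.1 hl
    have ha : a ≤ α := (le_of_lt hl'.1).trans hx
    simp only [lv]
    rw [ih a ha hl'.2, shift_le hx, shift_le ha]
    congr 2; ring

lemma rv_shift (v f : Ord → ℝ) (α : Ord) (d : ℝ) : ∀ (l : List Ord) (x : Ord), α < x →
    (x :: l).IsChain (· < ·) → rv v (shift f α d) x l = rv v f x l := by
  intro l
  induction l with
  | nil => intro x hx _; simp only [rv]; rw [shift_gt hx]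
  | cons a l ih =>
    intro x hx hl
    have hl' := List.isChain_cons_cons.1 hl
    have ha : α < a := hx.trans hl'.1
    simp only [rv]
    rw [ih a ha hl'.2, shift_gt hx, shift_gt ha]

/-- upper bound of the values of the shifted chains through the pair functions -/
lemma Q_shift_le {v f : Ord → ℝ} (h : Bd v f) (α : Ord) (d K : ℝ)
    (h1 : ∀ b c, b ≤ α → α < c → Lf v f b + G (f c - f b - d) (v c) + Rf v f c ≤ K)
    (h2 : ∀ b, b ≤ α → Lf v f b + 2 * (f b + d) ^ 2 ≤ K)
    (h3 : ∀ c, α < c → v c ^ 2 + Rf v f c ≤ K) (z : Zip) : Q v (shift f α d) z ≤ K := by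
  have up : ∀ (r : List Ord) (x : Ord) (l : List Ord), x ≤ α → (x :: l).IsChain (· > ·) →
      (x :: r).IsChain (· < ·) →
      lv v (shift f α d) x l + rv v (shift f α d) x r ≤ K := by
    intro r
    induction r with
    | nil =>
      intro x l hx hl _
      rw [lv_shift v f α d l x hx hl]
      simp only [rv]
      rw [shift_le hx]
      have := le_Lf h x hl
      have := h2 x hx
      linarith
    | cons c r ih =>
      intro x l hx hl hr
      have hr' := List.isChain_cons_cons.1 hr
      rcases le_or_gt c α with hc | hc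
      · have := ih c (x :: l) hc (List.isChain_cons_cons.2 ⟨hr'.1, hl⟩) hr'.2
        simp only [lv, rv] at this ⊢
        linarith
      · rw [lv_shift v f α d l x hx hl]
        simp only [rv]
        rw [rv_shift v f α d r c hc hr'.2, shift_le hx, shift_gt hc]
        have e1 := le_Lf h x hl
        have e2 := le_Rf h c hr'.2
        have e3 := h1 x c hx hc
        have e4 : f c - (f x + d) = f c - f x - d := by ring
        rw [e4]
        linarith
  have down : ∀ (l : List Ord) (x : Ord) (r : List Ord), α < x → (x :: l).IsChain (· > ·) →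
      (x :: r).IsChain (· < ·) →
      lv v (shift f α d) x l + rv v (shift f α d) x r ≤ K := by
    intro l
    induction l with
    | nil =>
      intro x r hx _ hr
      rw [rv_shift v f α d r x hx hr]
      simp only [lv]
      have := le_Rf h x hr
      have := h3 x hx
      linarith
    | cons a l ih =>
      intro x r hx hl hr
      have hl' := List.isChain_cons_cons.1 hl
      rcases le_or_gt a α with ha | ha
      · have := up (x :: r) a l ha hl'.2 (List.isChain_cons_cons.2 ⟨hl'.1, hr⟩)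
        simp only [lv, rv] at this ⊢
        linarith
      · have := ih a (x :: r) ha hl'.2 (List.isChain_cons_cons.2 ⟨hl'.1, hr⟩)
        simp only [lv, rv] at this ⊢
        linarith
  rcases le_or_gt z.x α with hx | hx
  · exact up z.r z.x z.l hx z.hl z.hr
  · exact down z.l z.x z.r hx z.hl z.hr

lemma N2_le {v f : Ord → ℝ} {K : ℝ} (hK : ∀ z, Q v f z ≤ K) : N2 v f ≤ K := ciSup_le hK

end

end Pool.Agent.Helper372.LJ
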