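import Mathlib
import Pool.Agent.Helper372.LJ.Det3

namespace Pool.Agent.Helper372.LJ

open Order Set Filter Topology

noncomputable section

lemma sq_shift_le {x d B : ℝ} (hx : |x| ≤ B) :
    2 * (x + d) ^ 2 ≤ 2 * x ^ 2 + 4 * B * |d| + 2 * d ^ 2 := by
  have : x * d ≤ B * |d| := by
    calc x * d ≤ |x * d| := le_abs_self _
      _ = |x| * |d| := abs_mul _ _
      _ ≤ B * |d| := mul_le_mul_of_nonneg_right hx (abs_nonneg _)
  nlinarith

section

variable {v f : Ord → ℝ} (h : Bd v f) (hf : Continuous f)
  (hvf : ∀ c, v c = 0 ↔ f c = f (Order.succ c)) {κ : Ord} (hκ : ∀ d, κ ≤ d → f d = 0)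
  (hnt : ∀ b, v b ≠ 0 → Lf v f b + Rf v f b = N2 v f → Nm v f b < N2 v f)

omit h in
/-- crude bound: shifted pair values -/
lemma pair_shift_le {b c : Ord} {d η : ℝ}
    (hB : |f c - f b| ≤ η) :
    Lf v f b + G (f c - f b - d) (v c) + Rf v f c ≤ W v f b c + 6 * η * |d| + 3 * d ^ 2 := by
  have h1 := G_shift_sub (f c - f b) d (v c)
  have h2 : |f c - f b| * |d| ≤ η * |d| := mul_le_mul_of_nonneg_right hB (abs_nonneg _)
  unfold W
  linarith

include h hf hvf hκ hnt in
theorem second_diff (α : Ord) {ε : ℝ} (hε : 0 < ε) :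
    ∃ d0 > 0, ∀ d, 0 < d → d < d0 →
      N2 v (shift f α d) + N2 v (shift f α (-d)) ≤ 2 * N2 v f + ε * d := by
  set N := N2 v f with hN
  set B : ℝ := Real.sqrt N with hB
  have hBn : 0 ≤ B := Real.sqrt_nonneg _
  have hfB : ∀ b, |f b| ≤ B := fun b => Real.abs_le_sqrt (sq_f_le h b)
  have hfB2 : ∀ b c, |f c - f b| ≤ 2 * B := fun b c => by
    calc |f c - f b| ≤ |f c| + |f b| := abs_sub _ _
      _ ≤ 2 * B := by linarith [hfB b, hfB c]
  by_cases hP : ∃ b c, b ≤ α ∧ α < c ∧ W v f b c = N ∧ f c ≠ f b
  · obtain ⟨b, c, hb, hc, hW, hx⟩ := hP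
    obtain ⟨δ, hδ, i1, i2, i3⟩ := isolated_pair h hf hvf hκ hnt hb hc hW hx
    refine ⟨min 1 (min (δ / (24 * B + 12)) (ε / 6)), by positivity, fun d hd hd0 => ?_⟩
    have hd1 : d ≤ 1 := hd0.le.trans (min_le_left _ _)
    have hd2 : d ≤ δ / (24 * B + 12) :=
      hd0.le.trans ((min_le_right _ _).trans (min_le_left _ _))
    have hd3 : d ≤ ε / 6 := hd0.le.trans ((min_le_right _ _).trans (min_le_right _ _))
    rw [le_div_iff₀ (by positivity)] at hd2
    have hdd : d ^ 2 ≤ d := by nlinarith
    have main : ∀ s : ℝ, |s| = d → N2 v (shift f α s) ≤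
        Lf v f b + G (f c - f b - s) (v c) + Rf v f c := by
      intro s hs
      have hs2 : s ^ 2 = d ^ 2 := by rw [← sq_abs s, hs]
      have low : N - 12 * B * d - 9 * d ^ 2 ≤ Lf v f b + G (f c - f b - s) (v c) + Rf v f c := by
        have h1 := G_shift (f c - f b - s) s (v c)
        rw [show f c - f b - s + s = f c - f b by ring] at h1
        have h2 : |f c - f b - s| ≤ 2 * B + d := by
          calc |f c - f b - s| ≤ |f c - f b| + |s| := abs_sub _ _
            _ ≤ 2 * B + d := by rw [hs]; linarith [hfB2 b c]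
        have h3 : |f c - f b - s| * |s| ≤ (2 * B + d) * d := by
          rw [hs]; exact mul_le_mul_of_nonneg_right h2 hd.le
        rw [hs2] at h1
        unfold W at hW
        nlinarith
      refine N2_le (Q_shift_le h α s _ ?_ ?_ ?_)
      · intro b' c' hb' hc'
        by_cases he : (b', c') = (b, c)
        · obtain ⟨rfl, rfl⟩ := Prod.mk.inj he
          exact le_rfl
        · have h1 := i1 b' c' hb' hc' he
          have h2 := pair_shift_le (v := v) (b := b') (c := c') (d := s) (hfB2 b' c')
          rw [hs, hs2] at h2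
          nlinarith
      · intro b' hb'
        have h1 := i2 b' hb'
        have h2 := sq_shift_le (x := f b') (d := s) (hfB b')
        rw [hs, hs2] at h2
        nlinarith
      · intro c' hc'
        have h1 := i3 c' hc'
        nlinarith
    have m1 := main d (abs_of_pos hd)
    have m2 := main (-d) (by rw [abs_neg, abs_of_pos hd])
    have m3 := G_second (f c - f b) d (v c)
    rw [sub_neg_eq_add] at m2
    unfold W at hW
    nlinarith
  by_cases hL : ∃ b, b ≤ α ∧ Lf v f b + 2 * f b ^ 2 = N ∧ f b ≠ 0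
  · obtain ⟨b, hb, hW, hx⟩ := hL
    obtain ⟨δ, hδ, i1, i2, i3⟩ := isolated_last h hf hvf hκ hnt hb hW hx
    refine ⟨min 1 (min (δ / (24 * B + 12)) (ε / 6)), by positivity, fun d hd hd0 => ?_⟩
    have hd1 : d ≤ 1 := hd0.le.trans (min_le_left _ _)
    have hd2 : d ≤ δ / (24 * B + 12) :=
      hd0.le.trans ((min_le_right _ _).trans (min_le_left _ _))
    have hd3 : d ≤ ε / 6 := hd0.le.trans ((min_le_right _ _).trans (min_le_right _ _))
    rw [le_div_iff₀ (by positivity)] at hd2
    have hdd : d ^ 2 ≤ d := by nlinarith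
    have main : ∀ s : ℝ, |s| = d → N2 v (shift f α s) ≤ Lf v f b + 2 * (f b + s) ^ 2 := by
      intro s hs
      have hs2 : s ^ 2 = d ^ 2 := by rw [← sq_abs s, hs]
      have low : N - 4 * B * d ≤ Lf v f b + 2 * (f b + s) ^ 2 := by
        have h3 : -(f b * s) ≤ B * d := by
          calc -(f b * s) ≤ |f b * s| := neg_le_abs _
            _ = |f b| * |s| := abs_mul _ _
            _ ≤ B * d := by rw [hs]; exact mul_le_mul_of_nonneg_right (hfB b) hd.le
        nlinarith [sq_nonneg s]
      refine N2_le (Q_shift_le h α s _ ?_ ?_ ?_)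
      · intro b' c' hb' hc'
        have h1 := i1 b' c' hb' hc'
        have h2 := pair_shift_le (v := v) (b := b') (c := c') (d := s) (hfB2 b' c')
        rw [hs, hs2] at h2
        nlinarith
      · intro b' hb'
        by_cases he : b' = b
        · subst he; exact le_rfl
        · have h1 := i2 b' hb' he
          have h2 := sq_shift_le (x := f b') (d := s) (hfB b')
          rw [hs, hs2] at h2
          nlinarith
      · intro c' hc'
        have h1 := i3 c' hc'
        nlinarith
    have m1 := main d (abs_of_pos hd)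
    have m2 := main (-d) (by rw [abs_neg, abs_of_pos hd])
    nlinarith
  -- no exact pair with a nonzero increment
  push Not at hP hL
  have hε1 : 0 < ε / 24 := by positivity
  obtain ⟨δ1, hδ1, j1⟩ := compact_pairs h hf hvf hκ α hε1 (by
    intro b c hb hc hx
    refine lt_of_le_of_ne (W_le h b c (hb.trans_lt hc)) fun he => ?_
    have := hP b c hb hc he
    rw [this, sub_self, abs_zero] at hx
    linarith)
  obtain ⟨δ2, hδ2, j2⟩ := compact_last h hf α (ε := ε / 24) (by
    intro b hb hx
    refine lt_of_le_of_ne (last_le h b) fun he => ?_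
    have := hL b hb he
    rw [this, abs_zero] at hx
    linarith)
  refine ⟨min 1 (min (min δ1 δ2 / (12 * B + 3)) (ε / 12)), by positivity, fun d hd hd0 => ?_⟩
  have hd1 : d ≤ 1 := hd0.le.trans (min_le_left _ _)
  have hd2 : d ≤ min δ1 δ2 / (12 * B + 3) :=
    hd0.le.trans ((min_le_right _ _).trans (min_le_left _ _))
  have hd3 : d ≤ ε / 12 := hd0.le.trans ((min_le_right _ _).trans (min_le_right _ _))
  rw [le_div_iff₀ (by positivity)] at hd2
  have hdd : d ^ 2 ≤ d := by nlinarith
  have k1 := min_le_left δ1 δ2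
  have k2 := min_le_right δ1 δ2
  have main : ∀ s : ℝ, |s| = d → N2 v (shift f α s) ≤ N + ε / 4 * d + 3 * d ^ 2 := by
    intro s hs
    have hs2 : s ^ 2 = d ^ 2 := by rw [← sq_abs s, hs]
    have hεd : 0 ≤ ε / 4 * d := by positivity
    have hBd : 0 ≤ B * d := by positivity
    refine N2_le (Q_shift_le h α s _ ?_ ?_ ?_)
    · intro b' c' hb' hc'
      by_cases hx : ε / 24 ≤ |f c' - f b'|
      · have h1 := j1 b' c' hb' hc' hx
        have h2 := pair_shift_le (v := v) (b := b') (c := c') (d := s) (hfB2 b' c')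
        rw [hs, hs2] at h2
        nlinarith
      · have h1 := W_le h b' c' (hb'.trans_lt hc')
        have h2 := pair_shift_le (v := v) (b := b') (c := c') (d := s) (not_le.1 hx).le
        rw [hs, hs2] at h2
        linarith
    · intro b' hb'
      by_cases hx : ε / 24 ≤ |f b'|
      · have h1 := j2 b' hb' hx
        have h2 := sq_shift_le (x := f b') (d := s) (hfB b')
        rw [hs, hs2] at h2
        nlinarith
      · have h1 := last_le h b'
        have h2 := sq_shift_le (x := f b') (d := s) (not_le.1 hx).le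
        rw [hs, hs2] at h2
        nlinarith
    · intro c' hc'
      have h1 := start_le h c'
      nlinarith [sq_nonneg d]
  have m1 := main d (abs_of_pos hd)
  have m2 := main (-d) (by rw [abs_neg, abs_of_pos hd])
  nlinarith

end

end

end Pool.Agent.Helper372.LJ
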