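import Mathlib
import Pool.Agent.Helper372.LJ.Chains

namespace Pool.Agent.Helper372.LJ

open Order Set Filter Topology

noncomputable section

/-! ### dependence of the chain values on the data -/

lemma G_le_of_sq (x : ℝ) {v w : ℝ} (h : v ^ 2 ≤ w ^ 2) : G x v ≤ G x w := by
  have := G_mono x h
  linarith

lemma G_comm (x v : ℝ) : G x v = G v x := by
  unfold G; congr 1; ring

lemma rv_mono {v w : Ord → ℝ} (f : Ord → ℝ) (hvw : ∀ b, v b ^ 2 ≤ w b ^ 2) (l : List Ord) :
    ∀ b, rv v f b l ≤ rv w f b l := by
  induction l with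
  | nil => intro b; exact le_rfl
  | cons c l ih =>
    intro b
    simp only [rv]
    exact add_le_add (G_le_of_sq _ (hvw c)) (ih c)

lemma lv_mono {v w : Ord → ℝ} (f : Ord → ℝ) (hvw : ∀ b, v b ^ 2 ≤ w b ^ 2) (l : List Ord) :
    ∀ b, lv v f b l ≤ lv w f b l := by
  induction l with
  | nil => intro b; exact hvw b
  | cons c l ih =>
    intro b
    simp only [lv]
    exact add_le_add (ih c) (G_le_of_sq _ (hvw b))

lemma Q_mono {v w : Ord → ℝ} (f : Ord → ℝ) (hvw : ∀ b, v b ^ 2 ≤ w b ^ 2) (z : Zip) :
    Q v f z ≤ Q w f z :=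
  add_le_add (lv_mono f hvw _ _) (rv_mono f hvw _ _)

lemma rv_congr {v w : Ord → ℝ} (f : Ord → ℝ) {α : Ord} (hvw : ∀ b, b ≠ α → v b = w b)
    (l : List Ord) : ∀ b, α ∉ l → rv v f b l = rv w f b l := by
  induction l with
  | nil => intro b _; rfl
  | cons c l ih =>
    intro b hb
    simp only [rv]
    have h1 : c ≠ α := fun h => hb (by rw [h]; exact List.mem_cons_self ..)
    have h2 : α ∉ l := fun h => hb (List.mem_cons_of_mem _ h)
    rw [hvw c h1, ih c h2]

lemma lv_congr {v w : Ord → ℝ} (f : Ord → ℝ) {α : Ord} (hvw : ∀ b, b ≠ α → v b = w b)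
    (l : List Ord) : ∀ b, b ≠ α → α ∉ l → lv v f b l = lv w f b l := by
  induction l with
  | nil => intro b hb _; simp only [lv]; rw [hvw b hb]
  | cons c l ih =>
    intro b hbα hb
    simp only [lv]
    have h1 : c ≠ α := fun h => hb (by rw [h]; exact List.mem_cons_self ..)
    have h2 : α ∉ l := fun h => hb (List.mem_cons_of_mem _ h)
    rw [hvw b hbα, ih c h1 h2]

lemma Q_congr {v w : Ord → ℝ} (f : Ord → ℝ) {α : Ord} (hvw : ∀ b, b ≠ α → v b = w b)
    {z : Zip} (hz : z.Avoids α) : Q v f z = Q w f z := by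
  unfold Q
  rw [rv_congr f hvw z.r z.x hz.2.2, lv_congr f hvw z.l z.x hz.2.1.symm hz.1]

/-- chains through `α` at the marked point -/
lemma Q_focus {v w : Ord → ℝ} (f : Ord → ℝ) {α : Ord} (hvw : ∀ b, b ≠ α → v b = w b)
    (hα : v α ^ 2 ≤ w α ^ 2) {z : Zip} (hz : z.x = α) :
    Q v f z + (w α ^ 2 - v α ^ 2) ≤ Q w f z := by
  obtain ⟨l, x, r, hl, hr⟩ := z
  simp only at hz
  subst hz
  have h1 : x ∉ r := fun h => lt_irrefl _ (chain_mem_lt hr h)
  have h2 : x ∉ l := fun h => lt_irrefl _ (chain_mem_gt hl h)
  unfold Q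
  simp only
  rw [rv_congr f hvw r x h1]
  cases l with
  | nil => simp only [lv]; linarith
  | cons a l =>
    simp only [lv]
    have h3 : a ≠ x := fun h => h2 (by rw [h]; exact List.mem_cons_self ..)
    have h4 : x ∉ l := fun h => h2 (List.mem_cons_of_mem _ h)
    rw [lv_congr f hvw l a h3 h4]
    have := G_mono (f x - f a) hα
    linarith

/-- changing the variable at one place -/
lemma G_upd (x v w : ℝ) : G x w ≤ G x v + (6 * |v| * |w - v| + 3 * (w - v) ^ 2) := by
  have := G_shift v (w - v) x
  rw [show v + (w - v) = w by ring, G_comm w, G_comm v] at this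
  linarith

lemma sq_upd (v w : ℝ) : w ^ 2 ≤ v ^ 2 + (6 * |v| * |w - v| + 3 * (w - v) ^ 2) := by
  have := G_upd 0 v w
  rwa [G_zero_left, G_zero_left] at this

lemma rv_upd {v w : Ord → ℝ} (f : Ord → ℝ) {α : Ord} (hvw : ∀ b, b ≠ α → v b = w b)
    (l : List Ord) : ∀ b, (b :: l).IsChain (· < ·) →
    rv w f b l ≤ rv v f b l + (6 * |v α| * |w α - v α| + 3 * (w α - v α) ^ 2) := by
  have hE : 0 ≤ 6 * |v α| * |w α - v α| + 3 * (w α - v α) ^ 2 := by positivity
  induction l with
  | nil => intro b _; simp only [rv]; linarith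
  | cons c l ih =>
    intro b hb
    have hb' := List.isChain_cons_cons.1 hb
    simp only [rv]
    by_cases hc : c = α
    · subst hc
      have h1 : c ∉ l := fun h => lt_irrefl _ (chain_mem_lt hb'.2 h)
      rw [rv_congr f hvw l c h1]
      have := G_upd (f c - f b) (v c) (w c)
      linarith
    · rw [hvw c hc]
      have := ih c hb'.2
      linarith

lemma lv_upd {v w : Ord → ℝ} (f : Ord → ℝ) {α : Ord} (hvw : ∀ b, b ≠ α → v b = w b)
    (l : List Ord) : ∀ b, (b :: l).IsChain (· > ·) →
    lv w f b l ≤ lv v f b l + (6 * |v α| * |w α - v α| + 3 * (w α - v α) ^ 2) := by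
  have hE : 0 ≤ 6 * |v α| * |w α - v α| + 3 * (w α - v α) ^ 2 := by positivity
  induction l with
  | nil =>
    intro b _
    simp only [lv]
    by_cases hb : b = α
    · subst hb; exact sq_upd _ _
    · rw [hvw b hb]; linarith
  | cons c l ih =>
    intro b hb
    have hb' := List.isChain_cons_cons.1 hb
    simp only [lv]
    by_cases hc : b = α
    · subst hc
      have h1 : b ∉ l := fun h => lt_irrefl _ (chain_mem_gt hb (List.mem_cons_of_mem _ h))
      have h2 : c ≠ b := (show c < b from hb'.1).ne
      rw [lv_congr f hvw l c h2 h1]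
      have := G_upd (f b - f c) (v b) (w b)
      linarith
    · rw [hvw b hc]
      have := ih c hb'.2
      linarith

lemma Q_upd {v w : Ord → ℝ} (f : Ord → ℝ) {α : Ord} (hvw : ∀ b, b ≠ α → v b = w b)
    (z : Zip) : Q w f z ≤ Q v f z + (6 * |v α| * |w α - v α| + 3 * (w α - v α) ^ 2) := by
  obtain ⟨l, x, r, hl, hr⟩ := z
  unfold Q
  simp only
  rcases lt_or_ge x α with hx | hx
  · have h2 : α ∉ l := fun h => absurd (chain_mem_gt hl h) (not_lt.2 hx.le)
    rw [lv_congr f hvw l x hx.ne h2]
    have := rv_upd f hvw r x hr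
    linarith
  · have h2 : α ∉ r := fun h => absurd (chain_mem_lt hr h) (not_lt.2 hx)
    rw [rv_congr f hvw r x h2]
    have := lv_upd f hvw l x hl
    linarith

section convex

variable {s t : ℝ} (hs : 0 ≤ s) (ht : 0 ≤ t) (hst : s + t = 1)
include hs ht hst

lemma rv_convex (v f v' f' : Ord → ℝ) (l : List Ord) : ∀ b,
    rv (fun c => s * v c + t * v' c) (fun c => s * f c + t * f' c) b l
      ≤ s * rv v f b l + t * rv v' f' b l := by
  induction l with
  | nil =>
    intro b
    simp only [rv]
    have := aux_sq_convex hs ht hst (f b) (f' b)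
    linarith
  | cons c l ih =>
    intro b
    simp only [rv]
    have h1 := G_convex hs ht hst (f c - f b) (v c) (f' c - f' b) (v' c)
    have h2 := ih c
    rw [show s * f c + t * f' c - (s * f b + t * f' b)
      = s * (f c - f b) + t * (f' c - f' b) by ring]
    linarith

lemma lv_convex (v f v' f' : Ord → ℝ) (l : List Ord) : ∀ b,
    lv (fun c => s * v c + t * v' c) (fun c => s * f c + t * f' c) b l
      ≤ s * lv v f b l + t * lv v' f' b l := by
  induction l with
  | nil =>
    intro b
    simp only [lv]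
    exact aux_sq_convex hs ht hst (v b) (v' b)
  | cons c l ih =>
    intro b
    simp only [lv]
    have h1 := G_convex hs ht hst (f b - f c) (v b) (f' b - f' c) (v' b)
    have h2 := ih c
    rw [show s * f b + t * f' b - (s * f c + t * f' c)
      = s * (f b - f c) + t * (f' b - f' c) by ring]
    linarith

lemma Q_convex (v f v' f' : Ord → ℝ) (z : Zip) :
    Q (fun c => s * v c + t * v' c) (fun c => s * f c + t * f' c) z
      ≤ s * Q v f z + t * Q v' f' z := by
  have h1 := rv_convex hs ht hst v f v' f' z.r z.x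
  have h2 := lv_convex hs ht hst v f v' f' z.l z.x
  unfold Q
  linarith

end convex

lemma rv_smul (k : ℝ) (v f : Ord → ℝ) (l : List Ord) : ∀ b,
    rv (fun c => k * v c) (fun c => k * f c) b l = k ^ 2 * rv v f b l := by
  induction l with
  | nil => intro b; simp only [rv]; ring
  | cons c l ih =>
    intro b
    simp only [rv]
    rw [ih c, ← mul_sub, G_smul]; ring

lemma lv_smul (k : ℝ) (v f : Ord → ℝ) (l : List Ord) : ∀ b,
    lv (fun c => k * v c) (fun c => k * f c) b l = k ^ 2 * lv v f b l := by
  induction l with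
  | nil => intro b; simp only [lv]; ring
  | cons c l ih =>
    intro b
    simp only [lv]
    rw [ih c, ← mul_sub, G_smul]; ring

lemma Q_smul (k : ℝ) (v f : Ord → ℝ) (z : Zip) :
    Q (fun c => k * v c) (fun c => k * f c) z = k ^ 2 * Q v f z := by
  unfold Q; rw [rv_smul, lv_smul]; ring

lemma continuous_rv (f : Ord → ℝ) (l : List Ord) : ∀ b,
    Continuous (fun v : Ord → ℝ => rv v f b l) := by
  induction l with
  | nil => intro b; simp only [rv]; exact continuous_const
  | cons c l ih =>
    intro b
    simp only [rv]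
    exact (continuous_G.comp (continuous_const.prodMk (continuous_apply c))).add (ih c)

lemma continuous_lv (f : Ord → ℝ) (l : List Ord) : ∀ b,
    Continuous (fun v : Ord → ℝ => lv v f b l) := by
  induction l with
  | nil => intro b; simp only [lv]; exact (continuous_apply b).pow 2
  | cons c l ih =>
    intro b
    simp only [lv]
    exact (ih c).add (continuous_G.comp (continuous_const.prodMk (continuous_apply b)))

lemma continuous_Q (f : Ord → ℝ) (z : Zip) : Continuous (fun v : Ord → ℝ => Q v f z) :=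
  (continuous_lv f _ _).add (continuous_rv f _ _)

/-- chains with the mark at `b` -/
lemma LR_le_focus {v f : Ord → ℝ} (b : Ord) {K : ℝ}
    (hK : ∀ z : Zip, z.x = b → Q v f z ≤ K) : Lf v f b + Rf v f b ≤ K := by
  have h1 : Rf v f b ≤ K - Lf v f b := by
    refine ciSup_le fun r => ?_
    have : Lf v f b ≤ K - rv v f b r.1 := by
      refine ciSup_le fun l => ?_
      have := hK ⟨l.1, b, r.1, l.2, r.2⟩ rfl
      simp only [Q] at this
      linarith
    linarith
  linarith

/-- the support of the jump data is countable -/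
lemma countable_support {v f : Ord → ℝ} (h : Bd v f) : (Function.support v).Countable := by
  have hq : ∀ b : Function.support v, ∃ q : ℚ, Lf v f b.1 - v b.1 ^ 2 < q ∧ (q : ℝ) < Lf v f b.1 := by
    rintro ⟨b, hb⟩
    have : 0 < v b ^ 2 := by
      have : v b ≠ 0 := hb
      positivity
    exact exists_rat_btwn (by simpa using this)
  choose q hq1 hq2 using hq
  have hlt : ∀ b c : Function.support v, b.1 < c.1 → q b < q c := by
    intro b c hbc
    have h1 := Lf_step h hbc
    have h2 := G_ge (f c.1 - f b.1) (v c.1)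
    have h3 := hq1 c
    have h4 := hq2 b
    have h5 := sq_nonneg (f c.1 - f b.1)
    have : (q b : ℝ) < q c := by linarith
    exact_mod_cast this
  have hinj : Function.Injective q := by
    intro b c hbc
    by_contra hne
    have hne' : b.1 ≠ c.1 := fun h => hne (Subtype.ext h)
    rcases lt_or_gt_of_ne hne' with h' | h'
    · exact (hlt b c h').ne hbc
    · exact (hlt c b h').ne hbc.symm
  have : Countable (Function.support v) := hinj.countable
  exact Set.countable_coe_iff.1 this

end

end Pool.Agent.Helper372.LJ
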