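import Mathlib
import Pool.Agent.Helper372.LJ.Det4
import Pool.Agent.Helper372.LJ.Vals

namespace Pool.Agent.Helper372.LJ

open Order Set Filter Topology MeasureTheory

noncomputable section

/-- the space of random weights -/
abbrev Om := Ord → unitInterval

/-- the product measure -/
def mu : Measure Om := Measure.infinitePi (fun _ : Ord => (volume : Measure unitInterval))

instance : IsProbabilityMeasure mu := by unfold mu; infer_instance

/-- weighted jump data -/
def wt (ω : Om) (a : Ord → ℝ) : Ord → ℝ := fun b => (1 + (ω b : ℝ)) * a b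

lemma wt_sq_le (ω : Om) (a : Ord → ℝ) (b : Ord) : wt ω a b ^ 2 ≤ (2 * a b) ^ 2 := by
  unfold wt
  have h0 : 0 ≤ (ω b : ℝ) := (ω b).2.1
  have h1 : (ω b : ℝ) ≤ 1 := (ω b).2.2
  rw [mul_pow, mul_pow]
  exact mul_le_mul_of_nonneg_right (pow_le_pow_left₀ (by linarith) (by linarith) 2)
    (sq_nonneg _)

lemma Bd_mono {v w f : Ord → ℝ} (h : Bd w f) (hvw : ∀ b, v b ^ 2 ≤ w b ^ 2) : Bd v f := by
  obtain ⟨M, hM⟩ := h
  refine ⟨M, ?_⟩
  rintro _ ⟨z, rfl⟩
  exact (Q_mono f hvw z).trans (hM ⟨z, rfl⟩)

lemma Bd_wt {a f : Ord → ℝ} (h : Bd (fun b => 2 * a b) f) (ω : Om) : Bd (wt ω a) f :=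
  Bd_mono h (wt_sq_le ω a)

lemma resample (b : Ord) : MeasurePreserving
    (fun p : Om × unitInterval => Function.update p.1 b p.2) (mu.prod volume) mu := by
  have hm : Measurable (fun p : Om × unitInterval => Function.update p.1 b p.2) := by
    rw [measurable_pi_iff]
    intro c
    by_cases hc : c = b
    · subst hc
      simp only [Function.update_self]
      exact measurable_snd
    · simp only [Function.update_of_ne hc]
      exact (measurable_pi_apply c).comp measurable_fst
  refine ⟨hm, ?_⟩
  apply Measure.eq_infinitePi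
  intro s t ht
  rw [Measure.map_apply hm (MeasurableSet.pi s.countable_toSet fun i _ => ht i)]
  by_cases hb : b ∈ s
  · have : (fun p : Om × unitInterval => Function.update p.1 b p.2) ⁻¹' (Set.pi s t)
        = (Set.pi (s.erase b : Finset Ord) t) ×ˢ (t b) := by
      ext ⟨ω, u⟩
      simp only [mem_preimage, Set.mem_pi, Finset.mem_coe, Finset.mem_erase, mem_prod]
      constructor
      · intro h
        refine ⟨fun i hi => ?_, ?_⟩
        · have := h i hi.2
          rwa [Function.update_of_ne hi.1] at this
        · have := h b hb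
          rwa [Function.update_self] at this
      · rintro ⟨h1, h2⟩ i hi
        by_cases hib : i = b
        · subst hib; rwa [Function.update_self]
        · rw [Function.update_of_ne hib]; exact h1 i ⟨hib, hi⟩
    rw [this, Measure.prod_prod, mu, Measure.infinitePi_pi _ (fun i _ => ht i),
      ← Finset.mul_prod_erase s _ hb, mul_comm]
  · have : (fun p : Om × unitInterval => Function.update p.1 b p.2) ⁻¹' (Set.pi s t)
        = (Set.pi (s : Set Ord) t) ×ˢ univ := by
      ext ⟨ω, u⟩
      simp only [mem_preimage, Set.mem_pi, Finset.mem_coe, mem_prod, mem_univ, and_true]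
      refine forall₂_congr fun i hi => ?_
      have : i ≠ b := fun h => hb (h ▸ hi)
      rw [Function.update_of_ne this]
    rw [this, Measure.prod_prod, mu, Measure.infinitePi_pi _ (fun i _ => ht i), measure_univ,
      mul_one]

/-- measurability of the suprema -/
lemma measurable_sup {a f : Ord → ℝ} (hb : Bd (fun b => 2 * a b) f)
    (ha : (Function.support a).Countable) {ι : Type*} [Nonempty ι] (z : ι → Zip) :
    Measurable (fun ω : Om => ⨆ i, Q (wt ω a) f (z i)) := by
  set S := Function.support a with hS
  have : Countable S := ha.to_subtype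
  classical
  let vS : (S → unitInterval) → Ord → ℝ := fun σ b =>
    if h : b ∈ S then (1 + (σ ⟨b, h⟩ : ℝ)) * a b else 0
  have hvS : Continuous vS := by
    refine continuous_pi fun b => ?_
    by_cases h : b ∈ S
    · simp only [vS, h, dif_pos]
      exact (continuous_const.add (continuous_subtype_val.comp (continuous_apply _))).mul
        continuous_const
    · simp only [vS, h, dif_neg, not_false_eq_true]
      exact continuous_const
  have hvle : ∀ σ b, vS σ b ^ 2 ≤ (2 * a b) ^ 2 := by
    intro σ b
    by_cases h : b ∈ S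
    · simp only [vS, h, dif_pos]
      have h0 : 0 ≤ (σ ⟨b, h⟩ : ℝ) := (σ ⟨b, h⟩).2.1
      have h1 : (σ ⟨b, h⟩ : ℝ) ≤ 1 := (σ ⟨b, h⟩).2.2
      rw [mul_pow, mul_pow]
      exact mul_le_mul_of_nonneg_right (pow_le_pow_left₀ (by linarith) (by linarith) 2)
        (sq_nonneg _)
    · simp only [vS, h, dif_neg, not_false_eq_true]
      rw [zero_pow two_ne_zero]
      exact sq_nonneg _
  have hlsc : LowerSemicontinuous (fun σ : S → unitInterval => ⨆ i, Q (vS σ) f (z i)) := by
    apply lowerSemicontinuous_ciSup
    · intro σ
      obtain ⟨M, hM⟩ := hb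
      refine ⟨M, ?_⟩
      rintro _ ⟨i, rfl⟩
      exact (Q_mono f (hvle σ) _).trans (hM ⟨_, rfl⟩)
    · intro i
      exact ((continuous_Q f (z i)).comp hvS).lowerSemicontinuous
  have hm := hlsc.measurable
  have hr : Measurable (fun ω : Om => (fun b : S => ω b.1)) :=
    measurable_pi_lambda _ fun b => measurable_pi_apply _
  have := hm.comp hr
  convert this using 1
  ext ω
  simp only [Function.comp]
  congr 1
  ext i
  congr 1
  ext b
  by_cases h : b ∈ S
  · simp only [vS, wt, h, dif_pos]
  · simp only [vS, wt, h, dif_neg, not_false_eq_true]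
    have : a b = 0 := by simpa [hS] using h
    rw [this, mul_zero]

lemma wt_update_self (ω : Om) (a : Ord → ℝ) (b : Ord) (u : unitInterval) :
    wt (Function.update ω b u) a b = (1 + (u : ℝ)) * a b := by
  simp [wt]

lemma wt_update_ne (ω : Om) (a : Ord → ℝ) {b c : Ord} (hc : c ≠ b) (u : unitInterval) :
    wt (Function.update ω b u) a c = wt ω a c := by
  simp [wt, Function.update_of_ne hc]

instance (b : Ord) : Nonempty {z : Zip // z.x = b} := ⟨⟨⟨[], b, [], by simp, by simp⟩, rfl⟩⟩

lemma tie_null {a f : Ord → ℝ} (hb : Bd (fun b => 2 * a b) f)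
    (ha : (Function.support a).Countable) {b : Ord} (hab : a b ≠ 0) :
    ∀ᵐ ω ∂mu, (⨆ z : {z : Zip // z.x = b}, Q (wt ω a) f z.1) ≠ Nm (wt ω a) f b := by
  set T : Set Om := {ω | (⨆ z : {z : Zip // z.x = b}, Q (wt ω a) f z.1) = Nm (wt ω a) f b} with hT
  have m1 : Measurable (fun ω : Om => ⨆ z : {z : Zip // z.x = b}, Q (wt ω a) f z.1) :=
    measurable_sup hb ha _
  have m2 : Measurable (fun ω : Om => Nm (wt ω a) f b) :=
    measurable_sup hb ha (fun z : {z : Zip // z.Avoids b} => z.1)
  have hTm : MeasurableSet T := measurableSet_eq_fun m1 m2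
  have key : mu T = 0 := by
    rw [← (resample b).measure_preimage hTm.nullMeasurableSet,
      Measure.prod_apply ((resample b).measurable hTm)]
    rw [lintegral_eq_zero_iff' (by
      exact (measurable_measure_prodMk_left ((resample b).measurable hTm)).aemeasurable)]
    refine Filter.Eventually.of_forall fun ω => ?_
    refine Set.Subsingleton.measure_zero ?_ _
    -- two different values of the weight cannot both give a tie
    have main : ∀ u u' : unitInterval, (u : ℝ) < u' →
        Function.update ω b u ∈ T → Function.update ω b u' ∈ T → False := by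
      intro u u' huu h1 h2
      simp only [hT, Set.mem_ofPred_eq] at h1 h2
      have hNm : Nm (wt (Function.update ω b u) a) f b
          = Nm (wt (Function.update ω b u') a) f b := by
        unfold Nm
        congr 1
        ext z
        exact Q_congr f (fun c hc => by rw [wt_update_ne ω a hc, wt_update_ne ω a hc]) z.2
      have hu0 : 0 ≤ (u : ℝ) := u.2.1
      have hlt : (⨆ z : {z : Zip // z.x = b}, Q (wt (Function.update ω b u) a) f z.1)
          + ((1 + (u' : ℝ)) ^ 2 - (1 + (u : ℝ)) ^ 2) * a b ^ 2
          ≤ ⨆ z : {z : Zip // z.x = b}, Q (wt (Function.update ω b u') a) f z.1 := by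
        have : (⨆ z : {z : Zip // z.x = b}, Q (wt (Function.update ω b u) a) f z.1)
            ≤ (⨆ z : {z : Zip // z.x = b}, Q (wt (Function.update ω b u') a) f z.1)
              - ((1 + (u' : ℝ)) ^ 2 - (1 + (u : ℝ)) ^ 2) * a b ^ 2 := by
          refine ciSup_le fun z => ?_
          have h3 := Q_focus (v := wt (Function.update ω b u) a)
            (w := wt (Function.update ω b u') a) f (α := b)
            (fun c hc => by rw [wt_update_ne ω a hc, wt_update_ne ω a hc])
            (by
              rw [wt_update_self, wt_update_self, mul_pow, mul_pow]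
              exact mul_le_mul_of_nonneg_right
                (pow_le_pow_left₀ (by linarith) (by linarith) 2) (sq_nonneg _)) z.2
          rw [wt_update_self, wt_update_self] at h3
          have h4 : Q (wt (Function.update ω b u') a) f z.1
              ≤ ⨆ z : {z : Zip // z.x = b}, Q (wt (Function.update ω b u') a) f z.1 := by
            refine le_ciSup
              (f := fun z : {z : Zip // z.x = b} => Q (wt (Function.update ω b u') a) f z.1)
              ?_ z
            exact (Bd_wt hb _).mono (by rintro _ ⟨z, rfl⟩; exact ⟨z.1, rfl⟩)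
          nlinarith
        linarith
      have hpos : 0 < ((1 + (u' : ℝ)) ^ 2 - (1 + (u : ℝ)) ^ 2) * a b ^ 2 := by
        apply mul_pos
        · nlinarith
        · positivity
      rw [h1, h2, hNm] at hlt
      linarith
    intro u hu u' hu'
    by_contra hne
    have hne' : (u : ℝ) ≠ u' := fun h => hne (Subtype.ext h)
    rcases lt_or_gt_of_ne hne' with h | h
    · exact main u u' h hu hu'
    · exact main u' u h hu' hu
  rw [ae_iff]
  simpa [hT] using key

/-- almost surely there are no ties -/
lemma ae_no_tie {a f : Ord → ℝ} (hb : Bd (fun b => 2 * a b) f)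
    (ha : (Function.support a).Countable) :
    ∀ᵐ ω ∂mu, ∀ b, wt ω a b ≠ 0 → Lf (wt ω a) f b + Rf (wt ω a) f b = N2 (wt ω a) f →
      Nm (wt ω a) f b < N2 (wt ω a) f := by
  have h1 := (ae_ball_iff ha).2 (fun b (h : b ∈ Function.support a) => tie_null hb ha h)
  filter_upwards [h1] with ω hω
  intro b hb0 hLR
  have hab : b ∈ Function.support a := by
    intro h; exact hb0 (by simp [wt, h])
  have h2 := hω b hab
  have hB := Bd_wt hb ω
  refine lt_of_le_of_ne (Nm_le_N2 hB b) fun hNm => h2 ?_
  rw [hNm]
  apply le_antisymm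
  · exact ciSup_le fun z => Q_le_N2 hB z.1
  · rw [← hLR]
    refine LR_le_focus b fun z hz => ?_
    refine le_ciSup (f := fun z : {z : Zip // z.x = b} => Q (wt ω a) f z.1) ?_ ⟨z, hz⟩
    exact hB.mono (by rintro _ ⟨z, rfl⟩; exact ⟨z.1, rfl⟩)

end

end Pool.Agent.Helper372.LJ
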