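import Mathlib
import Pool.Agent.Helper372.LJ.Meas

namespace Pool.Agent.Helper372.LJ

open Order Set Filter Topology MeasureTheory

noncomputable section

/-- admissible data -/
structure Adm (a f : Ord → ℝ) : Prop where
  bd : Bd (fun b => 2 * a b) f
  ct : (Function.support a).Countable

/-- expected value -/
def EF (a f : Ord → ℝ) : ℝ := ∫ ω, N2 (wt ω a) f ∂mu

lemma N2_mono {v w f : Ord → ℝ} (h : Bd w f) (hvw : ∀ b, v b ^ 2 ≤ w b ^ 2) :
    N2 v f ≤ N2 w f :=
  N2_le fun z => (Q_mono f hvw z).trans (Q_le_N2 h z)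

lemma N2_measurable {a f : Ord → ℝ} (h : Adm a f) : Measurable (fun ω => N2 (wt ω a) f) :=
  measurable_sup h.bd h.ct (fun z : Zip => z)

lemma N2_wt_le {a f : Ord → ℝ} (h : Adm a f) (ω : Om) :
    N2 (wt ω a) f ≤ N2 (fun b => 2 * a b) f := N2_mono h.bd (wt_sq_le ω a)

lemma N2_wt_nonneg {a f : Ord → ℝ} (h : Adm a f) (ω : Om) : 0 ≤ N2 (wt ω a) f :=
  N2_nonneg (Bd_wt h.bd ω)

lemma N2_integrable {a f : Ord → ℝ} (h : Adm a f) : Integrable (fun ω => N2 (wt ω a) f) mu := by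
  refine Integrable.of_bound (N2_measurable h).aestronglyMeasurable (N2 (fun b => 2 * a b) f)
    (Filter.Eventually.of_forall fun ω => ?_)
  rw [Real.norm_eq_abs, abs_of_nonneg (N2_wt_nonneg h ω)]
  exact N2_wt_le h ω

lemma EF_nonneg {a f : Ord → ℝ} (h : Adm a f) : 0 ≤ EF a f :=
  integral_nonneg fun ω => N2_wt_nonneg h ω

lemma EF_le {a f : Ord → ℝ} (h : Adm a f) : EF a f ≤ N2 (fun b => 2 * a b) f := by
  have := integral_mono (N2_integrable h) (integrable_const (N2 (fun b => 2 * a b) f))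
    (fun ω => N2_wt_le h ω)
  unfold EF
  simpa using this

lemma le_EF {a f : Ord → ℝ} (h : Adm a f) {K : ℝ} (hK : ∀ ω, K ≤ N2 (wt ω a) f) :
    K ≤ EF a f := by
  have := integral_mono (integrable_const K) (N2_integrable h) (fun ω => hK ω)
  unfold EF
  simpa using this

lemma Bd_iff {v f : Ord → ℝ} : Bd v f ↔ ∃ M, ∀ z, Q v f z ≤ M := by
  constructor
  · rintro ⟨M, hM⟩; exact ⟨M, fun z => hM ⟨z, rfl⟩⟩
  · rintro ⟨M, hM⟩; exact ⟨M, by rintro _ ⟨z, rfl⟩; exact hM z⟩

lemma Bd_convex {v f v' f' : Ord → ℝ} (h : Bd v f) (h' : Bd v' f') {s t : ℝ} (hs : 0 ≤ s)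
    (ht : 0 ≤ t) (hst : s + t = 1) :
    Bd (fun c => s * v c + t * v' c) (fun c => s * f c + t * f' c) := by
  refine Bd_iff.2 ⟨s * N2 v f + t * N2 v' f', fun z => ?_⟩
  have h1 := Q_convex hs ht hst v f v' f' z
  have h2 := mul_le_mul_of_nonneg_left (Q_le_N2 h z) hs
  have h3 := mul_le_mul_of_nonneg_left (Q_le_N2 h' z) ht
  linarith

lemma N2_convex {v f v' f' : Ord → ℝ} (h : Bd v f) (h' : Bd v' f') {s t : ℝ} (hs : 0 ≤ s)
    (ht : 0 ≤ t) (hst : s + t = 1) :
    N2 (fun c => s * v c + t * v' c) (fun c => s * f c + t * f' c)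
      ≤ s * N2 v f + t * N2 v' f' := by
  refine N2_le fun z => ?_
  have h1 := Q_convex hs ht hst v f v' f' z
  have h2 := mul_le_mul_of_nonneg_left (Q_le_N2 h z) hs
  have h3 := mul_le_mul_of_nonneg_left (Q_le_N2 h' z) ht
  linarith

lemma Bd_smul {v f : Ord → ℝ} (h : Bd v f) (k : ℝ) :
    Bd (fun c => k * v c) (fun c => k * f c) := by
  refine Bd_iff.2 ⟨k ^ 2 * N2 v f, fun z => ?_⟩
  rw [Q_smul]
  exact mul_le_mul_of_nonneg_left (Q_le_N2 h z) (sq_nonneg k)

lemma N2_smul {v f : Ord → ℝ} (k : ℝ) :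
    N2 (fun c => k * v c) (fun c => k * f c) = k ^ 2 * N2 v f := by
  unfold N2
  simp_rw [Q_smul]
  rw [Real.mul_iSup_of_nonneg (sq_nonneg k)]

lemma Adm.convex {a f a' f' : Ord → ℝ} (h : Adm a f) (h' : Adm a' f') {s t : ℝ} (hs : 0 ≤ s)
    (ht : 0 ≤ t) (hst : s + t = 1) :
    Adm (fun c => s * a c + t * a' c) (fun c => s * f c + t * f' c) := by
  refine ⟨?_, ?_⟩
  · have := Bd_convex h.bd h'.bd hs ht hst
    convert this using 2
    ring
  · refine (h.ct.union h'.ct).mono ?_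
    intro b hb
    by_contra hcon
    simp only [mem_union, Function.mem_support, not_or, not_not] at hcon
    exact hb (by simp [hcon.1, hcon.2])

lemma Adm.smul {a f : Ord → ℝ} (h : Adm a f) (k : ℝ) :
    Adm (fun c => k * a c) (fun c => k * f c) := by
  refine ⟨?_, ?_⟩
  · have := Bd_smul h.bd k
    convert this using 2
    ring
  · refine h.ct.mono ?_
    intro b hb hcon
    exact hb (by simp [hcon])

lemma EF_convex {a f a' f' : Ord → ℝ} (h : Adm a f) (h' : Adm a' f') {s t : ℝ} (hs : 0 ≤ s)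
    (ht : 0 ≤ t) (hst : s + t = 1) :
    EF (fun c => s * a c + t * a' c) (fun c => s * f c + t * f' c)
      ≤ s * EF a f + t * EF a' f' := by
  unfold EF
  rw [← integral_const_mul, ← integral_const_mul,
    ← integral_add ((N2_integrable h).const_mul s) ((N2_integrable h').const_mul t)]
  refine integral_mono (N2_integrable (h.convex h' hs ht hst))
    (((N2_integrable h).const_mul s).add ((N2_integrable h').const_mul t)) fun ω => ?_
  have := N2_convex (Bd_wt h.bd ω) (Bd_wt h'.bd ω) hs ht hst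
  have e : wt ω (fun c => s * a c + t * a' c) = fun c => s * wt ω a c + t * wt ω a' c := by
    ext c
    simp only [wt]; ring
  simp only
  rw [e]
  exact this

lemma EF_smul {a f : Ord → ℝ} (k : ℝ) :
    EF (fun c => k * a c) (fun c => k * f c) = k ^ 2 * EF a f := by
  unfold EF
  rw [← integral_const_mul]
  congr 1
  ext ω
  rw [← N2_smul (v := wt ω a) (f := f) k]
  have e : wt ω (fun c => k * a c) = fun c => k * wt ω a c := by
    ext c
    simp only [wt]; ring
  rw [e]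

/-- dominated convergence in the form used below -/
theorem dct {F : ℝ → Om → ℝ} (hm : ∀ d, 0 < d → d < 1 → AEStronglyMeasurable (F d) mu)
    (h0 : ∀ d ω, 0 < d → d < 1 → 0 ≤ F d ω) {C : ℝ}
    (hC : ∀ d ω, 0 < d → d < 1 → F d ω ≤ C * d)
    (hae : ∀ᵐ ω ∂mu, ∀ ε > 0, ∃ d0 > 0, ∀ d, 0 < d → d < d0 → F d ω ≤ ε * d) :
    ∀ ε > 0, ∃ d0 > 0, ∀ d, 0 < d → d < d0 → ∫ ω, F d ω ∂mu ≤ ε * d := by
  have hev : ∀ᶠ d : ℝ in 𝓝[>] 0, 0 < d ∧ d < 1 := Ioo_mem_nhdsGT one_pos
  have hC0 : 0 ≤ C := by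
    have h1 := h0 (1 / 2) (fun _ => 0) (by norm_num) (by norm_num)
    have h2 := hC (1 / 2) (fun _ => 0) (by norm_num) (by norm_num)
    linarith
  have ht : Tendsto (fun d => ∫ ω, F d ω / d ∂mu) (𝓝[>] 0) (𝓝 (∫ _ω, (0 : ℝ) ∂mu)) := by
    refine tendsto_integral_filter_of_dominated_convergence (fun _ => C) ?_ ?_
      (integrable_const C) ?_
    · filter_upwards [hev] with d hd
      exact ((hm d hd.1 hd.2).aemeasurable.div_const d).aestronglyMeasurable
    · filter_upwards [hev] with d hd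
      refine Filter.Eventually.of_forall fun ω => ?_
      rw [Real.norm_eq_abs, abs_of_nonneg (div_nonneg (h0 d ω hd.1 hd.2) hd.1.le),
        div_le_iff₀ hd.1]
      exact hC d ω hd.1 hd.2
    · filter_upwards [hae] with ω hω
      rw [Metric.tendsto_nhds]
      intro ε hε
      obtain ⟨d0, hd0, hd⟩ := hω (ε / 2) (by positivity)
      filter_upwards [hev, Ioo_mem_nhdsGT hd0] with d h1 h2
      rw [Real.dist_eq, sub_zero, abs_of_nonneg (div_nonneg (h0 d ω h1.1 h1.2) h1.1.le),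
        div_lt_iff₀ h1.1]
      have := hd d h2.1 h2.2
      have : 0 < ε * d := mul_pos hε h1.1
      linarith
  rw [integral_zero] at ht
  intro ε hε
  have := (ht.eventually (gt_mem_nhds hε)).and hev
  obtain ⟨d0, hd0, hd0'⟩ := mem_nhdsGT_iff_exists_Ioo_subset.1 this
  refine ⟨d0, hd0, fun d h1 h2 => ?_⟩
  have h3 := hd0' ⟨h1, h2⟩
  simp only [Set.mem_ofPred_eq] at h3
  rw [integral_div] at h3
  have h4 := h3.1
  rw [div_lt_iff₀ h1] at h4
  exact h4.le

end

end Pool.Agent.Helper372.LJ
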