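import Mathlib
import Pool.Agent.Helper372.LJ.Expect

namespace Pool.Agent.Helper372.LJ

open Order Set Filter Topology MeasureTheory

noncomputable section

/-! ### shift direction -/

lemma Q_shift_bound {v f : Ord → ℝ} (h : Bd v f) (α : Ord) (d : ℝ) (z : Zip) :
    Q v (shift f α d) z ≤ N2 v f + (12 * Real.sqrt (N2 v f) * |d| + 3 * d ^ 2) := by
  set N := N2 v f with hN
  set B : ℝ := Real.sqrt N with hB
  have hBn : 0 ≤ B := Real.sqrt_nonneg _
  have hfB : ∀ b, |f b| ≤ B := fun b => Real.abs_le_sqrt (sq_f_le h b)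
  have hfB2 : ∀ b c, |f c - f b| ≤ 2 * B := fun b c => by
    calc |f c - f b| ≤ |f c| + |f b| := abs_sub _ _
      _ ≤ 2 * B := by linarith [hfB b, hfB c]
  have hd : 0 ≤ B * |d| := by positivity
  have hd2 : 0 ≤ d ^ 2 := by positivity
  refine Q_shift_le h α d _ ?_ ?_ ?_ z
  · intro b c hb hc
    have h1 := pair_shift_le (v := v) (b := b) (c := c) (d := d) (hfB2 b c)
    have h2 := W_le h b c (hb.trans_lt hc)
    linarith
  · intro b _
    have h1 := last_le h b
    have h2 := sq_shift_le (x := f b) (d := d) (hfB b)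
    linarith
  · intro c _
    have h1 := start_le h c
    linarith

lemma Bd_shift {v f : Ord → ℝ} (h : Bd v f) (α : Ord) (d : ℝ) : Bd v (shift f α d) :=
  Bd_iff.2 ⟨_, Q_shift_bound h α d⟩

lemma N2_shift_bound {v f : Ord → ℝ} (h : Bd v f) (α : Ord) (d : ℝ) :
    N2 v (shift f α d) ≤ N2 v f + (12 * Real.sqrt (N2 v f) * |d| + 3 * d ^ 2) :=
  N2_le (Q_shift_bound h α d)

lemma Adm.shift {a f : Ord → ℝ} (h : Adm a f) (α : Ord) (d : ℝ) : Adm a (shift f α d) :=
  ⟨Bd_shift h.bd α d, h.ct⟩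

lemma N2_shift_lower {v f : Ord → ℝ} (h : Bd v f) (α : Ord) (d : ℝ) :
    2 * N2 v f ≤ N2 v (shift f α d) + N2 v (shift f α (-d)) := by
  have := N2_convex (Bd_shift h α d) (Bd_shift h α (-d)) (s := 1 / 2) (t := 1 / 2)
    (by norm_num) (by norm_num) (by norm_num)
  have e1 : (fun c => 1 / 2 * v c + 1 / 2 * v c) = v := by ext c; ring
  have e2 : (fun c => 1 / 2 * LJ.shift f α d c + 1 / 2 * LJ.shift f α (-d) c) = f := by
    ext c
    unfold LJ.shift
    split_ifs <;> ring
  rw [e1, e2] at this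
  linarith

lemma integral_three {X : Type*} [MeasurableSpace X] {m : Measure X} {A B C : X → ℝ}
    (hA : Integrable A m) (hB : Integrable B m) (hC : Integrable C m) :
    ∫ x, (A x + B x - 2 * C x) ∂m = ∫ x, A x ∂m + ∫ x, B x ∂m - 2 * ∫ x, C x ∂m := by
  have h1 := integral_sub (f := fun x => A x + B x) (g := fun x => 2 * C x) (hA.add hB)
    (hC.const_mul 2)
  have h2 := integral_add (f := A) (g := B) hA hB
  rw [h1, h2, integral_const_mul]

theorem EF_shift_second {a f : Ord → ℝ} (hA : Adm a f) (hf : Continuous f)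
    (haf : ∀ c, a c = 0 ↔ f c = f (Order.succ c)) {κ : Ord} (hκ : ∀ d, κ ≤ d → f d = 0)
    (α : Ord) : ∀ ε > 0, ∃ d0 > 0, ∀ d, 0 < d → d < d0 →
      EF a (shift f α d) + EF a (shift f α (-d)) - 2 * EF a f ≤ ε * d := by
  set B : ℝ := Real.sqrt (N2 (fun b => 2 * a b) f) with hB
  have hBn : 0 ≤ B := Real.sqrt_nonneg _
  have hint : ∀ d, Integrable (fun ω => N2 (wt ω a) (shift f α d)) mu :=
    fun d => N2_integrable (hA.shift α d)
  have key := dct (F := fun d ω => N2 (wt ω a) (shift f α d) + N2 (wt ω a) (shift f α (-d))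
      - 2 * N2 (wt ω a) f) (C := 24 * B + 6)
    (fun d _ _ => (((hint d).add (hint (-d))).sub
      ((N2_integrable hA).const_mul 2)).aestronglyMeasurable)
    (fun d ω _ _ => by
      have := N2_shift_lower (Bd_wt hA.bd ω) α d
      linarith)
    (fun d ω h0 h1 => by
      have e1 := N2_shift_bound (Bd_wt hA.bd ω) α d
      have e2 := N2_shift_bound (Bd_wt hA.bd ω) α (-d)
      have e3 : Real.sqrt (N2 (wt ω a) f) ≤ B := Real.sqrt_le_sqrt (N2_wt_le hA ω)
      rw [abs_neg, abs_of_pos h0, neg_sq] at e2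
      rw [abs_of_pos h0] at e1
      have e4 := mul_le_mul_of_nonneg_right e3 h0.le
      nlinarith)
    (by
      filter_upwards [ae_no_tie hA.bd hA.ct] with ω hω
      intro ε hε
      have hvf : ∀ c, wt ω a c = 0 ↔ f c = f (Order.succ c) := by
        intro c
        rw [← haf c]
        unfold wt
        have : 0 ≤ (ω c : ℝ) := (ω c).2.1
        constructor
        · intro h
          rcases mul_eq_zero.1 h with h | h
          · linarith
          · exact h
        · intro h; rw [h, mul_zero]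
      obtain ⟨d0, h0, h1⟩ := second_diff (Bd_wt hA.bd ω) hf hvf hκ hω α hε
      exact ⟨d0, h0, fun d h2 h3 => by have := h1 d h2 h3; linarith⟩)
  intro ε hε
  obtain ⟨d0, h0, h1⟩ := key ε hε
  refine ⟨d0, h0, fun d h2 h3 => ?_⟩
  have h4 := h1 d h2 h3
  rw [integral_three (hint d) (hint (-d)) (N2_integrable hA)] at h4
  exact h4

/-! ### direction changing one jump value -/

lemma Bd_upd {v w f : Ord → ℝ} (h : Bd v f) {α : Ord} (hvw : ∀ b, b ≠ α → v b = w b) :
    Bd w f := by
  refine Bd_iff.2 ⟨N2 v f + (6 * |v α| * |w α - v α| + 3 * (w α - v α) ^ 2), fun z => ?_⟩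
  have h1 := Q_upd f hvw z
  have h2 := Q_le_N2 h z
  linarith

lemma N2_upd {v w f : Ord → ℝ} (h : Bd v f) {α : Ord} (hvw : ∀ b, b ≠ α → v b = w b) :
    N2 w f ≤ N2 v f + (6 * |v α| * |w α - v α| + 3 * (w α - v α) ^ 2) := by
  refine N2_le fun z => ?_
  have h1 := Q_upd f hvw z
  have h2 := Q_le_N2 h z
  linarith

lemma Adm.upd {a f : Ord → ℝ} (h : Adm a f) (α : Ord) (y : ℝ) :
    Adm (Function.update a α y) f := by
  refine ⟨Bd_upd h.bd (α := α) fun b hb => by rw [Function.update_of_ne hb], ?_⟩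
  refine (h.ct.union (countable_singleton α)).mono fun b hb => ?_
  by_cases hba : b = α
  · exact Or.inr hba
  · left
    simpa [Function.update_of_ne hba] using hb

/-- the value as a function of one jump -/
def Ph (v f : Ord → ℝ) (α : Ord) (y : ℝ) : ℝ := N2 (Function.update v α y) f

lemma Bd_Ph {v f : Ord → ℝ} (h : Bd v f) (α : Ord) (y : ℝ) : Bd (Function.update v α y) f :=
  Bd_upd h (α := α) fun b hb => by rw [Function.update_of_ne hb]

lemma Ph_nonneg {v f : Ord → ℝ} (h : Bd v f) (α : Ord) (y : ℝ) : 0 ≤ Ph v f α y :=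
  N2_nonneg (Bd_Ph h α y)

lemma Ph_convexOn {v f : Ord → ℝ} (h : Bd v f) (α : Ord) : ConvexOn ℝ univ (Ph v f α) := by
  refine ⟨convex_univ, fun x _ y _ s t hs ht hst => ?_⟩
  have := N2_convex (Bd_Ph h α x) (Bd_Ph h α y) hs ht hst
  have e1 : (fun c => s * Function.update v α x c + t * Function.update v α y c)
      = Function.update v α (s * x + t * y) := by
    ext c
    by_cases hc : c = α
    · subst hc; simp
    · simp only [Function.update_of_ne hc]
      rw [← add_mul, hst, one_mul]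
  have e2 : (fun c => s * f c + t * f c) = f := by
    ext c
    rw [← add_mul, hst, one_mul]
  rw [e1, e2] at this
  simpa [Ph, smul_eq_mul] using this

lemma Ph_continuous {v f : Ord → ℝ} (h : Bd v f) (α : Ord) : Continuous (Ph v f α) := by
  rw [← continuousOn_univ]
  exact (Ph_convexOn h α).continuousOn isOpen_univ

lemma Ph_bound {v f : Ord → ℝ} (h : Bd v f) (α : Ord) (y y' : ℝ) :
    Ph v f α y' ≤ Ph v f α y + (6 * |y| * |y' - y| + 3 * (y' - y) ^ 2) := by
  have := N2_upd (Bd_Ph h α y) (w := Function.update v α y') (α := α)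
    (fun b hb => by rw [Function.update_of_ne hb, Function.update_of_ne hb])
  simpa [Ph] using this

/-- averaging over the weight gives a function differentiable off zero -/
lemma averaged_diff {Φ : ℝ → ℝ} (hΦ : Continuous Φ) {c : ℝ} (hc : c ≠ 0) :
    ∃ D, HasDerivAt (fun c => ∫ x in (0:ℝ)..1, Φ ((1 + x) * c)) D c := by
  set P : ℝ → ℝ := fun x => ∫ y in (0:ℝ)..x, Φ y with hP
  have hPd : ∀ x, HasDerivAt P (Φ x) x := fun x =>
    intervalIntegral.integral_hasDerivAt_right (hΦ.intervalIntegrable _ _)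
      hΦ.stronglyMeasurable.stronglyMeasurableAtFilter hΦ.continuousAt
  have heq : ∀ y, y ≠ 0 → (∫ x in (0:ℝ)..1, Φ ((1 + x) * y)) = (P (2 * y) - P y) / y := by
    intro y hy
    have h1 : (∫ x in (0:ℝ)..1, Φ ((1 + x) * y)) = ∫ x in (0:ℝ)..1, Φ (y + y * x) := by
      congr 1; ext x; congr 1; ring
    rw [h1, intervalIntegral.integral_comp_add_mul Φ hy]
    have h2 : (∫ x in y + y * 0..y + y * 1, Φ x) = P (2 * y) - P y := by
      rw [mul_zero, add_zero, mul_one, ← two_mul]
      simp only [hP]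
      rw [intervalIntegral.integral_interval_sub_left (hΦ.intervalIntegrable _ _)
        (hΦ.intervalIntegrable _ _)]
    rw [h2, smul_eq_mul]
    field_simp
  have hd : HasDerivAt (fun y => (P (2 * y) - P y) / y)
      (((Φ (2 * c) * 2 - Φ c) * c - (P (2 * c) - P c) * 1) / c ^ 2) c := by
    have h1 : HasDerivAt (fun y : ℝ => P (2 * y)) (Φ (2 * c) * 2) c := by
      have h2 : HasDerivAt (fun y : ℝ => 2 * y) 2 c := by
        simpa using (hasDerivAt_id c).const_mul 2
      exact (hPd (2 * c)).comp c h2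
    exact (h1.sub (hPd c)).div (hasDerivAt_id c) hc
  refine ⟨_, hd.congr_of_eventuallyEq ?_⟩
  filter_upwards [isOpen_ne.mem_nhds hc] with y hy
  exact heq y hy

lemma second_of_hasDerivAt {K : ℝ → ℝ} {D c : ℝ} (h : HasDerivAt K D c) :
    ∀ ε > 0, ∃ d0 > 0, ∀ d, 0 < d → d < d0 → K (c + d) + K (c - d) - 2 * K c ≤ ε * d := by
  intro ε hε
  rw [hasDerivAt_iff_isLittleO_nhds_zero, Asymptotics.isLittleO_iff] at h
  have h1 := h (show 0 < ε / 2 by positivity)
  rw [Metric.eventually_nhds_iff] at h1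
  obtain ⟨d0, h0, h2⟩ := h1
  refine ⟨d0, h0, fun d hd hd0 => ?_⟩
  have e1 := h2 (y := d) (by rw [Real.dist_eq, sub_zero, abs_of_pos hd]; exact hd0)
  have e2 := h2 (y := -d) (by rw [Real.dist_eq, sub_zero, abs_neg, abs_of_pos hd]; exact hd0)
  rw [Real.norm_eq_abs, Real.norm_eq_abs] at e1 e2
  rw [abs_neg] at e2
  rw [abs_of_pos hd] at e1 e2
  have f1 := (abs_le.1 e1).2
  have f2 := (abs_le.1 e2).2
  simp only [smul_eq_mul] at f1 f2
  rw [← sub_eq_add_neg] at f2
  linarith

lemma wt_update_update (ω : Om) (a : Ord → ℝ) (α : Ord) (u : unitInterval) (c : ℝ) :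
    wt (Function.update ω α u) (Function.update a α c)
      = Function.update (wt ω a) α ((1 + (u : ℝ)) * c) := by
  ext b
  by_cases hb : b = α
  · subst hb; simp [wt]
  · simp [wt, Function.update_of_ne hb]

/-- the average over one weight -/
def Kf (a f : Ord → ℝ) (α : Ord) (c : ℝ) (ω : Om) : ℝ :=
  ∫ u : unitInterval, Ph (wt ω a) f α ((1 + (u : ℝ)) * c)

lemma Kf_eq_interval (a f : Ord → ℝ) (α : Ord) (c : ℝ) (ω : Om) :
    Kf a f α c ω = ∫ x in (0:ℝ)..1, Ph (wt ω a) f α ((1 + x) * c) := by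
  unfold Kf
  rw [intervalIntegral.integral_of_le zero_le_one, ← integral_Icc_eq_integral_Ioc]
  exact integral_subtype measurableSet_Icc (fun x : ℝ => Ph (wt ω a) f α ((1 + x) * c))

lemma EF_upd_eq {a f : Ord → ℝ} (hA : Adm a f) (α : Ord) (c : ℝ) :
    EF (Function.update a α c) f = ∫ ω, Kf a f α c ω ∂mu := by
  have hA' := hA.upd α c
  have hm := N2_measurable hA'
  have hr := resample α
  have hint : Integrable (fun p : Om × unitInterval =>
      N2 (wt (Function.update p.1 α p.2) (Function.update a α c)) f) (mu.prod volume) := by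
    refine Integrable.of_bound (hm.comp hr.measurable).aestronglyMeasurable
      (N2 (fun b => 2 * Function.update a α c b) f) (Filter.Eventually.of_forall fun p => ?_)
    rw [Real.norm_eq_abs, abs_of_nonneg (N2_wt_nonneg hA' _)]
    exact N2_wt_le hA' _
  unfold EF
  rw [← hr.map_eq, integral_map hr.measurable.aemeasurable hm.aestronglyMeasurable,
    integral_prod _ hint, hr.map_eq]
  congr 1
  ext ω
  unfold Kf Ph
  congr 1
  ext u
  rw [wt_update_update]

lemma Kf_measurable {a f : Ord → ℝ} (hA : Adm a f) (α : Ord) (c : ℝ) :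
    StronglyMeasurable (Kf a f α c) := by
  have hA' := hA.upd α c
  have hm := N2_measurable hA'
  have hr := resample α
  have h1 : StronglyMeasurable (fun p : Om × unitInterval =>
      N2 (wt (Function.update p.1 α p.2) (Function.update a α c)) f) :=
    (hm.comp hr.measurable).stronglyMeasurable
  have h2 := h1.integral_prod_right' (ν := (volume : Measure unitInterval))
  convert h2 using 1
  ext ω
  unfold Kf Ph
  congr 1
  ext u
  simp only
  rw [wt_update_update]

lemma Kf_inner_integrable {a f : Ord → ℝ} (hA : Adm a f) (α : Ord) (c : ℝ) (ω : Om) :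
    Integrable (fun u : unitInterval => Ph (wt ω a) f α ((1 + (u : ℝ)) * c)) := by
  have hB := Bd_wt hA.bd ω
  have hc : Continuous (fun u : unitInterval => Ph (wt ω a) f α ((1 + (u : ℝ)) * c)) :=
    (Ph_continuous hB α).comp ((continuous_const.add continuous_subtype_val).mul
      continuous_const)
  refine Integrable.of_bound hc.measurable.aestronglyMeasurable
    (Ph (wt ω a) f α 0 + 12 * c ^ 2) (Filter.Eventually.of_forall fun u => ?_)
  rw [Real.norm_eq_abs, abs_of_nonneg (Ph_nonneg hB α _)]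
  have h1 := Ph_bound hB α 0 ((1 + (u : ℝ)) * c)
  have h0 : 0 ≤ (u : ℝ) := u.2.1
  have h2 : (u : ℝ) ≤ 1 := u.2.2
  have h3 : ((1 + (u : ℝ)) * c) ^ 2 ≤ 4 * c ^ 2 := by
    rw [mul_pow]
    exact mul_le_mul_of_nonneg_right (by nlinarith) (sq_nonneg c)
  rw [abs_zero, mul_zero, zero_mul, sub_zero] at h1
  linarith

theorem EF_upd_second {a f : Ord → ℝ} (hA : Adm a f) (α : Ord) :
    ∀ ε > 0, ∃ d0 > 0, ∀ d, 0 < d → d < d0 →
      EF (Function.update a α (a α + d)) f + EF (Function.update a α (a α - d)) f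
        - 2 * EF a f ≤ ε * d := by
  have hself : EF a f = ∫ ω, Kf a f α (a α) ω ∂mu := by
    rw [← EF_upd_eq hA α (a α), Function.update_eq_self]
  set c := a α with hc
  have second_nonneg : ∀ (d : ℝ) (ω : Om), 0 ≤ Kf a f α (c + d) ω + Kf a f α (c - d) ω
      - 2 * Kf a f α c ω := by
    intro d ω
    unfold Kf
    rw [← integral_three (Kf_inner_integrable hA α (c + d) ω)
      (Kf_inner_integrable hA α (c - d) ω) (Kf_inner_integrable hA α c ω)]
    refine integral_nonneg fun u => ?_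
    have h1 := (Ph_convexOn (Bd_wt hA.bd ω) α).2 (mem_univ ((1 + (u : ℝ)) * (c + d)))
      (mem_univ ((1 + (u : ℝ)) * (c - d))) (by norm_num : (0:ℝ) ≤ 1 / 2)
      (by norm_num : (0:ℝ) ≤ 1 / 2) (by norm_num : (1 / 2 : ℝ) + 1 / 2 = 1)
    rw [smul_eq_mul, smul_eq_mul, smul_eq_mul, smul_eq_mul,
      show 1 / 2 * ((1 + (u : ℝ)) * (c + d)) + 1 / 2 * ((1 + (u : ℝ)) * (c - d))
        = (1 + (u : ℝ)) * c by ring] at h1
    simp only [Pi.zero_apply]
    linarith
  have second_le : ∀ (d : ℝ) (ω : Om), 0 < d → d < 1 →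
      Kf a f α (c + d) ω + Kf a f α (c - d) ω - 2 * Kf a f α c ω
        ≤ (48 * |c| + 24) * d := by
    intro d ω hd hd1
    unfold Kf
    rw [← integral_three (Kf_inner_integrable hA α (c + d) ω)
      (Kf_inner_integrable hA α (c - d) ω) (Kf_inner_integrable hA α c ω)]
    have hle : ∀ u : unitInterval, Ph (wt ω a) f α ((1 + (u : ℝ)) * (c + d))
        + Ph (wt ω a) f α ((1 + (u : ℝ)) * (c - d)) - 2 * Ph (wt ω a) f α ((1 + (u : ℝ)) * c)
        ≤ (48 * |c| + 24) * d := by
      intro u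
      have h0 : 0 ≤ (u : ℝ) := u.2.1
      have h2 : (u : ℝ) ≤ 1 := u.2.2
      have e1 := Ph_bound (Bd_wt hA.bd ω) α ((1 + (u : ℝ)) * c) ((1 + (u : ℝ)) * (c + d))
      have e2 := Ph_bound (Bd_wt hA.bd ω) α ((1 + (u : ℝ)) * c) ((1 + (u : ℝ)) * (c - d))
      rw [show (1 + (u : ℝ)) * (c + d) - (1 + (u : ℝ)) * c = (1 + (u : ℝ)) * d by ring] at e1
      rw [show (1 + (u : ℝ)) * (c - d) - (1 + (u : ℝ)) * c = -((1 + (u : ℝ)) * d) by ring,
        abs_neg, neg_sq] at e2
      have a1 : |(1 + (u : ℝ)) * c| ≤ 2 * |c| := by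
        rw [abs_mul, abs_of_nonneg (by linarith : (0:ℝ) ≤ 1 + u)]
        exact mul_le_mul_of_nonneg_right (by linarith) (abs_nonneg c)
      have a2 : |(1 + (u : ℝ)) * d| ≤ 2 * d := by
        rw [abs_mul, abs_of_nonneg (by linarith : (0:ℝ) ≤ 1 + u), abs_of_pos hd]
        exact mul_le_mul_of_nonneg_right (by linarith) hd.le
      have a3 : |(1 + (u : ℝ)) * c| * |(1 + (u : ℝ)) * d| ≤ 2 * |c| * (2 * d) :=
        mul_le_mul a1 a2 (abs_nonneg _) (by positivity)
      have a4 : ((1 + (u : ℝ)) * d) ^ 2 ≤ (2 * d) ^ 2 := by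
        rw [← sq_abs]; exact pow_le_pow_left₀ (abs_nonneg _) a2 2
      nlinarith
    have := integral_mono (((Kf_inner_integrable hA α (c + d) ω).add
      (Kf_inner_integrable hA α (c - d) ω)).sub ((Kf_inner_integrable hA α c ω).const_mul 2))
      (integrable_const ((48 * |c| + 24) * d)) (fun u => hle u)
    simpa using this
  have hKint : ∀ y, Integrable (Kf a f α y) mu := by
    intro y
    refine Integrable.of_bound (Kf_measurable hA α y).aestronglyMeasurable
      (N2 (fun b => 2 * Function.update a α y b) f) (Filter.Eventually.of_forall fun ω => ?_)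
    have hA' := hA.upd α y
    have h1 : 0 ≤ Kf a f α y ω := integral_nonneg fun u => Ph_nonneg (Bd_wt hA.bd ω) α _
    rw [Real.norm_eq_abs, abs_of_nonneg h1]
    have := integral_mono (Kf_inner_integrable hA α y ω)
      (integrable_const (N2 (fun b => 2 * Function.update a α y b) f)) (fun u => by
        have h2 := N2_wt_le hA' (Function.update ω α u)
        rw [wt_update_update] at h2
        exact h2)
    simpa [Kf] using this
  have reduce : ∀ d, EF (Function.update a α (c + d)) f + EF (Function.update a α (c - d)) f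
      - 2 * EF a f = ∫ ω, (Kf a f α (c + d) ω + Kf a f α (c - d) ω - 2 * Kf a f α c ω) ∂mu := by
    intro d
    rw [EF_upd_eq hA, EF_upd_eq hA, hself, integral_three (hKint _) (hKint _) (hKint _)]
  simp_rw [reduce]
  refine dct (F := fun d ω => Kf a f α (c + d) ω + Kf a f α (c - d) ω - 2 * Kf a f α c ω)
    (C := 48 * |c| + 24)
    (fun d _ _ => (((hKint _).add (hKint _)).sub ((hKint _).const_mul 2)).aestronglyMeasurable)
    (fun d ω _ _ => second_nonneg d ω) (fun d ω h0 h1 => second_le d ω h0 h1)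
    (Filter.Eventually.of_forall fun ω => ?_)
  by_cases hc0 : c = 0
  · -- the jump vanishes
    intro ε hε
    refine ⟨min 1 (ε / 24), by positivity, fun d hd hd0 => ?_⟩
    have hd1 : d < 1 := hd0.trans_le (min_le_left _ _)
    have hd2 : d < ε / 24 := hd0.trans_le (min_le_right _ _)
    unfold Kf
    rw [← integral_three (Kf_inner_integrable hA α (c + d) ω)
      (Kf_inner_integrable hA α (c - d) ω) (Kf_inner_integrable hA α c ω)]
    have hle : ∀ u : unitInterval, Ph (wt ω a) f α ((1 + (u : ℝ)) * (c + d))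
        + Ph (wt ω a) f α ((1 + (u : ℝ)) * (c - d)) - 2 * Ph (wt ω a) f α ((1 + (u : ℝ)) * c)
        ≤ ε * d := by
      intro u
      have h0 : 0 ≤ (u : ℝ) := u.2.1
      have h2 : (u : ℝ) ≤ 1 := u.2.2
      have e1 := Ph_bound (Bd_wt hA.bd ω) α ((1 + (u : ℝ)) * c) ((1 + (u : ℝ)) * (c + d))
      have e2 := Ph_bound (Bd_wt hA.bd ω) α ((1 + (u : ℝ)) * c) ((1 + (u : ℝ)) * (c - d))
      rw [show (1 + (u : ℝ)) * (c + d) - (1 + (u : ℝ)) * c = (1 + (u : ℝ)) * d by ring] at e1
      rw [show (1 + (u : ℝ)) * (c - d) - (1 + (u : ℝ)) * c = -((1 + (u : ℝ)) * d) by ring,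
        abs_neg, neg_sq] at e2
      rw [hc0, mul_zero, abs_zero, mul_zero, zero_mul] at e1 e2
      have a4 : ((1 + (u : ℝ)) * d) ^ 2 ≤ 4 * d ^ 2 := by
        rw [mul_pow]; exact mul_le_mul_of_nonneg_right (by nlinarith) (sq_nonneg d)
      rw [hc0, mul_zero]
      nlinarith
    have := integral_mono (((Kf_inner_integrable hA α (c + d) ω).add
      (Kf_inner_integrable hA α (c - d) ω)).sub ((Kf_inner_integrable hA α c ω).const_mul 2))
      (integrable_const (ε * d)) (fun u => hle u)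
    simpa using this
  · obtain ⟨D, hD⟩ := averaged_diff (Ph_continuous (Bd_wt hA.bd ω) α) hc0
    intro ε hε
    obtain ⟨d0, h0, h1⟩ := second_of_hasDerivAt hD ε hε
    refine ⟨d0, h0, fun d h2 h3 => ?_⟩
    have := h1 d h2 h3
    simp only [Kf_eq_interval]
    exact this

end

end Pool.Agent.Helper372.LJ
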