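import Mathlib
import Pool.Agent.Helper372.LJ.Dirs
import Pool.Agent.Helper372.LJ.Abstract

namespace Pool.Agent.Helper372.LJ

open Order Set Filter Topology MeasureTheory

noncomputable section

/-- the jumps of a function on the ordinals -/
def jump (f : Ord → ℝ) : Ord → ℝ := fun b => f b - f (Order.succ b)

/-- membership in the space of functions on the ordinals used internally -/
structure InJ (f : Ord → ℝ) : Prop where
  cont : Continuous f
  ev : ∃ κ, ∀ d, κ ≤ d → f d = 0
  bd : Bd (fun b => 2 * jump f b) f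

lemma InJ.adm {f : Ord → ℝ} (h : InJ f) : Adm (jump f) f := by
  refine ⟨h.bd, (countable_support h.bd).mono ?_⟩
  intro b hb hb'
  simp only [mul_eq_zero, OfNat.ofNat_ne_zero, false_or] at hb'
  exact hb hb'

lemma InJ.comb {f g : Ord → ℝ} (hf : InJ f) (hg : InJ g) {s t : ℝ} (hs : 0 ≤ s)
    (ht : 0 ≤ t) (hst : s + t = 1) : InJ (fun c => s * f c + t * g c) := by
  refine ⟨(continuous_const.mul hf.cont).add (continuous_const.mul hg.cont), ?_, ?_⟩
  · obtain ⟨κ, hκ⟩ := hf.ev
    obtain ⟨κ', hκ'⟩ := hg.ev
    refine ⟨max κ κ', fun d hd => ?_⟩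
    rw [hκ d ((le_max_left _ _).trans hd), hκ' d ((le_max_right _ _).trans hd)]
    ring
  · have := Bd_convex hf.bd hg.bd hs ht hst
    convert this using 2
    unfold jump; ring

lemma InJ.const_mul {f : Ord → ℝ} (hf : InJ f) (k : ℝ) : InJ (fun c => k * f c) := by
  refine ⟨continuous_const.mul hf.cont, ?_, ?_⟩
  · obtain ⟨κ, hκ⟩ := hf.ev
    exact ⟨κ, fun d hd => by rw [hκ d hd, mul_zero]⟩
  · have := Bd_smul hf.bd k
    convert this using 2
    unfold jump; ring

lemma Q_zero (z : Zip) : Q (fun _ => 0) (fun _ => 0) z = 0 := by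
  have := Q_smul 0 (fun _ => 0) (fun _ => 0) z
  simpa using this

lemma InJ.zero : InJ (fun _ => 0) := by
  refine ⟨continuous_const, ⟨0, fun _ _ => rfl⟩, ?_⟩
  refine Bd_iff.2 ⟨0, fun z => ?_⟩
  have e : (fun b => 2 * jump (fun _ => (0:ℝ)) b) = fun _ => 0 := by
    ext b; simp [jump]
  rw [e, Q_zero]

lemma InJ.add {f g : Ord → ℝ} (hf : InJ f) (hg : InJ g) : InJ (fun c => f c + g c) := by
  have := (hf.const_mul 2).comb (hg.const_mul 2) (s := 1 / 2) (t := 1 / 2) (by norm_num)
    (by norm_num) (by norm_num)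
  convert this using 2
  ring

/-- the space of functions used internally -/
def JJ : Submodule ℝ (Ord → ℝ) where
  carrier := {f | InJ f}
  add_mem' := fun hf hg => InJ.add hf hg
  zero_mem' := InJ.zero
  smul_mem' := fun k _ hf => InJ.const_mul hf k

lemma mem_JJ {f : Ord → ℝ} : f ∈ JJ ↔ InJ f := Iff.rfl

/-- the square of the smooth norm -/
def qq (f : JJ) : ℝ := EF (jump f.1) f.1

/-- an auxiliary square of a norm -/
def tt (f : JJ) : ℝ := N2 (fun b => 2 * jump f.1 b) f.1

lemma qq_le_tt (f : JJ) : qq f ≤ tt f := EF_le (InJ.adm f.2)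

lemma qq_sqN : SqN qq := by
  refine ⟨fun f => EF_nonneg (InJ.adm f.2), fun c f => ?_, fun s t f g hs ht hst => ?_⟩
  · unfold qq
    rw [← EF_smul (a := jump f.1) (f := f.1) c]
    congr 1
    ext b
    simp only [jump, Submodule.coe_smul, Pi.smul_apply, smul_eq_mul]; ring
  · have := EF_convex (InJ.adm f.2) (InJ.adm g.2) hs ht hst
    have e1 : (fun c => s * f.1 c + t * g.1 c) = (s • f + t • g).1 := by
      ext b
      simp only [Submodule.coe_add, Submodule.coe_smul, Pi.add_apply, Pi.smul_apply,
        smul_eq_mul]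
    have e2 : (fun c => s * jump f.1 c + t * jump g.1 c) = jump (s • f + t • g).1 := by
      rw [← e1]; ext b; unfold jump; ring
    rw [e1, e2] at this
    exact this

/-- the basic step functions -/
lemma shift_inJ {f : Ord → ℝ} (hf : InJ f) (α : Ord) (t : ℝ) : InJ (shift f α t) ∧
    jump (shift f α t) = Function.update (jump f) α (jump f α + t) := by
  have hj : jump (shift f α t) = Function.update (jump f) α (jump f α + t) := by
    ext b
    unfold jump
    rcases lt_trichotomy b α with hb | hb | hb
    · rw [Function.update_of_ne hb.ne, shift_le hb.le, shift_le (Order.succ_le_of_lt hb)]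
      ring
    · subst hb
      rw [Function.update_self, shift_le le_rfl, shift_gt (Order.lt_succ b)]
      ring
    · rw [Function.update_of_ne hb.ne', shift_gt hb, shift_gt (hb.trans (Order.lt_succ b))]
  refine ⟨⟨?_, ?_, ?_⟩, hj⟩
  · rw [continuous_iff_continuousAt]
    intro b
    rcases le_or_gt b α with hb | hb
    · have h1 : ContinuousAt (fun b => f b + t) b := (hf.cont.add continuous_const).continuousAt
      refine h1.congr ?_
      filter_upwards [Iio_mem_nhds (Order.lt_succ_of_le hb)] with c hc
      exact (shift_le (Order.lt_succ_iff.1 hc)).symm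
    · refine hf.cont.continuousAt.congr ?_
      filter_upwards [Ioi_mem_nhds hb] with c hc
      exact (shift_gt hc).symm
  · obtain ⟨κ, hκ⟩ := hf.ev
    refine ⟨max κ (Order.succ α), fun d hd => ?_⟩
    rw [shift_gt ((Order.lt_succ α).trans_le ((le_max_right _ _).trans hd)),
      hκ d ((le_max_left _ _).trans hd)]
  · rw [hj]
    refine Bd_shift ?_ α t
    exact Bd_upd hf.bd (α := α) fun b hb => by rw [Function.update_of_ne hb]

/-- the indicator of an initial segment -/
def ind (α : Ord) : JJ := ⟨shift (fun _ => 0) α 1, (shift_inJ InJ.zero α 1).1⟩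

lemma add_ind (f : JJ) (α : Ord) (t : ℝ) : (f + t • ind α).1 = shift f.1 α t := by
  ext b
  simp only [Submodule.coe_add, Submodule.coe_smul, Pi.add_apply, Pi.smul_apply, smul_eq_mul,
    ind, shift]
  split_ifs <;> simp

lemma SD_ind (f : JJ) (α : Ord) : SD qq f (ind α) := by
  have hA := InJ.adm f.2
  obtain ⟨κ, hκ⟩ := (show InJ f.1 from f.2).ev
  have h1 := EF_shift_second hA (show InJ f.1 from f.2).cont
    (fun c => by unfold jump; exact sub_eq_zero) hκ α
  have h2 := EF_upd_second hA α
  have key : ∀ t : ℝ, qq (f + t • ind α) ≤ 1 / 2 * EF (Function.update (jump f.1) α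
      (jump f.1 α + 2 * t)) f.1 + 1 / 2 * EF (jump f.1) (shift f.1 α (2 * t)) := by
    intro t
    have := EF_convex (hA.upd α (jump f.1 α + 2 * t)) (hA.shift α (2 * t)) (s := 1 / 2)
      (t := 1 / 2) (by norm_num) (by norm_num) (by norm_num)
    have e1 : (fun c => 1 / 2 * Function.update (jump f.1) α (jump f.1 α + 2 * t) c
        + 1 / 2 * jump f.1 c) = jump (f + t • ind α).1 := by
      rw [add_ind, (shift_inJ f.2 α t).2]
      ext b
      by_cases hb : b = α
      · subst hb; simp only [Function.update_self]; ring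
      · simp only [Function.update_of_ne hb]; ring
    have e2 : (fun c => 1 / 2 * f.1 c + 1 / 2 * shift f.1 α (2 * t) c) = (f + t • ind α).1 := by
      rw [add_ind]
      ext b
      unfold shift
      split_ifs <;> ring
    rw [e1, e2] at this
    exact this
  intro ε hε
  obtain ⟨d1, hd1, e1⟩ := h1 (ε / 2) (by positivity)
  obtain ⟨d2, hd2, e2⟩ := h2 (ε / 2) (by positivity)
  refine ⟨min d1 d2 / 2, by positivity, fun d hd hd' => ?_⟩
  have m1 : 2 * d < d1 := by have := min_le_left d1 d2; linarith
  have m2 : 2 * d < d2 := by have := min_le_right d1 d2; linarith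
  have f1 := e1 (2 * d) (by positivity) m1
  have f2 := e2 (2 * d) (by positivity) m2
  have g1 := key d
  have g2 := key (-d)
  rw [show f + (-d) • ind α = f - d • ind α by module,
    show (2 : ℝ) * -d = -(2 * d) by ring, ← sub_eq_add_neg] at g2
  have : qq f = EF (jump f.1) f.1 := rfl
  rw [this]
  linarith

/-! ### tails -/

/-- the function frozen below `β` -/
def tl (f : Ord → ℝ) (β : Ord) : Ord → ℝ := fun d => f (max d β)

lemma tl_ge {f : Ord → ℝ} {β d : Ord} (h : β ≤ d) : tl f β d = f d := by
  unfold tl; rw [max_eq_left h]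

lemma tl_le {f : Ord → ℝ} {β d : Ord} (h : d ≤ β) : tl f β d = f β := by
  unfold tl; rw [max_eq_right h]

lemma jump_tl_ge {f : Ord → ℝ} {β d : Ord} (h : β ≤ d) : jump (tl f β) d = jump f d := by
  unfold jump; rw [tl_ge h, tl_ge (h.trans (Order.le_succ d))]

lemma jump_tl_lt {f : Ord → ℝ} {β d : Ord} (h : d < β) : jump (tl f β) d = 0 := by
  unfold jump; rw [tl_le h.le, tl_le (Order.succ_le_of_lt h), sub_self]

lemma Q_tl_le {f : Ord → ℝ} (h : Bd (fun b => 2 * jump f b) f) (β : Ord) (z : Zip) :
    Q (fun b => 2 * jump (tl f β) b) (tl f β) z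
      ≤ (2 * jump f β) ^ 2 + Rf (fun b => 2 * jump f b) f β := by
  set v : Ord → ℝ := fun b => 2 * jump f b with hv
  set w : Ord → ℝ := fun b => 2 * jump (tl f β) b with hw
  set g := tl f β with hg
  have hvβ : v β ^ 2 = (2 * jump f β) ^ 2 := rfl
  have hwge : ∀ d, β ≤ d → w d = v d := fun d hd => by
    simp only [hw, hv, hg]; rw [jump_tl_ge hd]
  have hwlt : ∀ d, d < β → w d = 0 := fun d hd => by
    simp only [hw, hg]; rw [jump_tl_lt hd, mul_zero]
  have above : ∀ (r : List Ord) (x : Ord), β ≤ x → (x :: r).IsChain (· < ·) →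
      rv w g x r = rv v f x r := by
    intro r
    induction r with
    | nil => intro x hx _; simp only [rv, hg]; rw [tl_ge hx]
    | cons c r ih =>
      intro x hx hr
      have hr' := List.isChain_cons_cons.1 hr
      have hc : β ≤ c := hx.trans (le_of_lt hr'.1)
      simp only [rv]
      rw [ih c hc hr'.2, hwge c hc, hg, tl_ge hx, tl_ge hc]
  have below : ∀ (r : List Ord) (x : Ord), x < β → (x :: r).IsChain (· < ·) →
      rv w g x r ≤ v β ^ 2 + Rf v f β := by
    intro r
    induction r with
    | nil =>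
      intro x hx _
      have := Rf_end h β
      simp only [rv, hg]
      rw [tl_le hx.le]
      have : 0 ≤ v β ^ 2 := sq_nonneg _
      linarith
    | cons c r ih =>
      intro x hx hr
      have hr' := List.isChain_cons_cons.1 hr
      simp only [rv]
      rcases lt_trichotomy c β with hc | hc | hc
      · have := ih c hc hr'.2
        rw [hwlt c hc, hg, tl_le hc.le, tl_le hx.le, sub_self, G_zero_left]
        linarith
      · subst hc
        have := le_Rf h c hr'.2
        rw [above r c le_rfl hr'.2, hwge c le_rfl, hg, tl_le le_rfl, tl_le hx.le, sub_self,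
          G_zero_left]
        linarith
      · have := le_Rf h β (l := c :: r) (List.isChain_cons_cons.2 ⟨hc, hr'.2⟩)
        simp only [rv] at this
        rw [above r c hc.le hr'.2, hwge c hc.le, hg, tl_ge hc.le, tl_le hx.le]
        have h0 : 0 ≤ v β ^ 2 := sq_nonneg _
        linarith
  have main : ∀ (l : List Ord) (x : Ord) (r : List Ord), (x :: l).IsChain (· > ·) →
      (x :: r).IsChain (· < ·) → lv w g x l + rv w g x r ≤ v β ^ 2 + Rf v f β := by
    intro l
    induction l with
    | nil =>
      intro x r _ hr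
      simp only [lv]
      rcases lt_trichotomy x β with hx | hx | hx
      · rw [hwlt x hx]
        have := below r x hx hr
        linarith
      · subst hx
        rw [above r x le_rfl hr, hwge x le_rfl]
        have := le_Rf h x hr
        linarith
      · rw [above r x hx.le hr, hwge x hx.le]
        have h1 := le_Rf h x hr
        have h2 := Rf_step h hx
        have h3 := G_ge (f x - f β) (v x)
        have h4 : 0 ≤ v β ^ 2 := sq_nonneg _
        have h5 : 0 ≤ (f x - f β) ^ 2 := sq_nonneg _
        linarith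
    | cons a l ih =>
      intro x r hl hr
      have hl' := List.isChain_cons_cons.1 hl
      have := ih a (x :: r) hl'.2 (List.isChain_cons_cons.2 ⟨hl'.1, hr⟩)
      simp only [lv, rv] at this ⊢
      linarith
  exact main z.l z.x z.r z.hl z.hr

lemma tl_inJ {f : Ord → ℝ} (hf : InJ f) (β : Ord) : InJ (tl f β) := by
  refine ⟨hf.cont.comp (continuous_id.max continuous_const), ?_, ?_⟩
  · obtain ⟨κ, hκ⟩ := hf.ev
    refine ⟨κ, fun d hd => hκ _ (hd.trans (le_max_left _ _))⟩
  · exact Bd_iff.2 ⟨_, Q_tl_le hf.bd β⟩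

/-- all directions are good -/
theorem SD_all (f : JJ) : ∀ (γ : Ord) (h : JJ), (∀ d, γ ≤ d → h.1 d = 0) → SD qq f h := by
  intro γ
  induction γ using WellFoundedLT.induction with
  | ind γ ih =>
    intro h hh
    by_cases h0 : γ = 0
    · subst h0
      have : h = 0 := by
        ext d
        exact hh d zero_le
      rw [this]; exact SD_zero _ _
    by_cases hlim : IsSuccLimit γ
    · -- limit case
      refine SD_lim qq_sqN fun η hη => ?_
      have hhJ : InJ h.1 := h.2
      have hγ0 : jump h.1 γ = 0 := by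
        unfold jump; rw [hh γ le_rfl, hh _ (Order.le_succ γ), sub_self]
      have hR0 : Rf (fun b => 2 * jump h.1 b) h.1 γ = 0 := by
        refine Rf_zero hhJ.bd (fun d hd => ?_) hh
        unfold jump
        rw [hh d hd, hh _ (hd.trans (Order.le_succ d))]; simp
      have htail := tail_usc hhJ.bd hhJ.cont γ (ε := η / 2) (by positivity)
      have hne : (𝓝[<] γ).NeBot :=
        hlim.isLUB_Iio.nhdsWithin_neBot ⟨0, pos_iff_ne_zero.2 h0⟩
      obtain ⟨β, ⟨hβ1, hβ2⟩, hβγ⟩ := (htail.and self_mem_nhdsWithin).exists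
      have hβγ' : β < γ := hβγ
      rw [hγ0, hR0] at hβ1
      let k : JJ := ⟨tl h.1 β, tl_inJ hhJ β⟩
      refine ⟨h - k, k, by abel, ?_, ?_⟩
      · refine ih β hβγ' (h - k) fun d hd => ?_
        have : (h - k).1 d = h.1 d - tl h.1 β d := rfl
        rw [this, tl_ge hd, sub_self]
      · refine (qq_le_tt k).trans ?_
        have : tt k ≤ (2 * jump h.1 β) ^ 2 + Rf (fun b => 2 * jump h.1 b) h.1 β :=
          N2_le (Q_tl_le hhJ.bd β)
        refine this.trans ?_
        have e : (2 * (0:ℝ)) ^ 2 = 0 := by norm_num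
        rw [e] at hβ1
        linarith
    · -- successor case
      have hpre : ¬ IsSuccPrelimit γ := fun hp => hlim ⟨fun hm => absurd (hm (zero_le : (0 : Ord) ≤ γ))
        (not_le.2 (pos_iff_ne_zero.2 h0)), hp⟩
      obtain ⟨e, he⟩ := not_isSuccPrelimit_iff.1 hpre
      have hes : Order.succ e = γ := he.succ_eq
      have h1 : SD qq f (h - h.1 e • ind e) := by
        refine ih e he.lt _ fun d hd => ?_
        have e1 : (h - h.1 e • ind e).1 d = h.1 d - h.1 e * shift (fun _ => 0) e 1 d := rfl
        rw [e1]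
        rcases hd.eq_or_lt with rfl | hd
        · rw [shift_le le_rfl]; ring
        · rw [shift_gt hd, hh d (by rw [← hes]; exact Order.succ_le_of_lt hd)]; ring
      have h2 : SD qq f (h.1 e • ind e) := (SD_ind f e).smul _
      have h3 := SD.add qq_sqN h1 h2
      rwa [sub_add_cancel] at h3

theorem SD_every (f h : JJ) : SD qq f h := by
  obtain ⟨κ, hκ⟩ := (show InJ h.1 from h.2).ev
  exact SD_all f κ h hκ

end

end Pool.Agent.Helper372.LJ
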