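import Mathlib
import Pool.Agent.Helper372.LJ.Space

namespace Pool.Agent.Helper372.LJ

open Order Set Filter Topology

noncomputable section

/-- sum of squares of increments along a chain -/
def qv (g : Ord → ℝ) : Ord → List Ord → ℝ
  | _, [] => 0
  | b, c :: l => (g c - g b) ^ 2 + qv g c l

lemma qv_nonneg (g : Ord → ℝ) (l : List Ord) : ∀ b, 0 ≤ qv g b l := by
  induction l with
  | nil => intro b; exact le_rfl
  | cons c l ih => intro b; simp only [qv]; have := ih c; positivity

lemma qv_le_rv (v g : Ord → ℝ) (l : List Ord) : ∀ b, qv g b l ≤ rv v g b l := by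
  induction l with
  | nil => intro b; simp only [qv, rv]; positivity
  | cons c l ih =>
    intro b
    simp only [qv, rv]
    have := ih c
    have := G_ge (g c - g b) (v c)
    have := sq_nonneg (v c)
    linarith

/-- boundedness of the chain values by the quadratic variation -/
theorem Q_le_of_qv {g : Ord → ℝ} {M : ℝ} (hM : ∀ b l, (b :: l).IsChain (· < ·) → qv g b l ≤ M)
    {κ : Ord} (hκ : ∀ d, κ ≤ d → g d = 0) (z : Zip) :
    Q (fun b => 2 * jump g b) g z ≤ 14 * M := by
  set v : Ord → ℝ := fun b => 2 * jump g b with hv
  let V : Ord → ℝ := fun b => ⨆ l : {l : List Ord // (b :: l).IsChain (· < ·)}, qv g b l.1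
  have hVle : ∀ b l, (b :: l).IsChain (· < ·) → qv g b l ≤ V b := by
    intro b l hl
    refine le_ciSup (f := fun l : {l : List Ord // (b :: l).IsChain (· < ·)} => qv g b l.1)
      ⟨M, ?_⟩ ⟨l, hl⟩
    rintro _ ⟨l, rfl⟩
    exact hM b l.1 l.2
  have hVM : ∀ b, V b ≤ M := fun b => ciSup_le fun l => hM b l.1 l.2
  have hV0 : ∀ b, 0 ≤ V b := fun b => by
    have := hVle b [] (by simp)
    simpa [qv] using this
  have hVstep : ∀ b c, b < c → (g c - g b) ^ 2 + V c ≤ V b := by
    intro b c hbc
    have : V c ≤ V b - (g c - g b) ^ 2 := by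
      refine ciSup_le fun l => ?_
      have := hVle b (c :: l.1) (List.isChain_cons_cons.2 ⟨hbc, l.2⟩)
      simp only [qv] at this
      linarith
    linarith
  have hVanti : ∀ b c, b ≤ c → V c ≤ V b := by
    intro b c hbc
    rcases hbc.eq_or_lt with rfl | hbc
    · exact le_rfl
    · have := hVstep b c hbc
      have := sq_nonneg (g c - g b)
      linarith
  have hgV : ∀ b, g b ^ 2 ≤ V b := by
    intro b
    have hlt : b < max (Order.succ b) κ := (Order.lt_succ b).trans_le (le_max_left _ _)
    have := hVstep b _ hlt
    rw [hκ _ (le_max_right _ _), zero_sub, neg_sq] at this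
    have := hV0 (max (Order.succ b) κ)
    linarith
  have hjV : ∀ b, jump g b ^ 2 + V (Order.succ b) ≤ V b := by
    intro b
    have := hVstep b _ (Order.lt_succ b)
    have e : jump g b ^ 2 = (g (Order.succ b) - g b) ^ 2 := by unfold jump; ring
    linarith
  have hv2 : ∀ b, v b ^ 2 = 4 * jump g b ^ 2 := fun b => by simp only [hv]; ring
  have key : ∀ (l : List Ord) (b : Ord), (b :: l).IsChain (· < ·) →
      rv v g b l + 3 * v b ^ 2 ≤ 13 * V b + M := by
    intro l
    induction l with
    | nil =>
      intro b _
      simp only [rv]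
      rw [hv2]
      have h1 := hgV b
      have h2 := hVM b
      have h3 := hjV b
      have h4 := hV0 (Order.succ b)
      linarith
    | cons c l ih =>
      intro b hl
      have hl' := List.isChain_cons_cons.1 hl
      have h1 := ih c hl'.2
      simp only [rv]
      have h2 := G_le (g c - g b) (v c)
      have h3 := hjV b
      have h4 := hVanti _ _ (Order.succ_le_of_lt (show b < c from hl'.1))
      have h5 := hVstep b c hl'.1
      have h6 := hv2 b
      linarith
  have main : ∀ (l : List Ord) (x : Ord) (r : List Ord), (x :: l).IsChain (· > ·) →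
      (x :: r).IsChain (· < ·) → lv v g x l + rv v g x r ≤ 14 * M := by
    intro l
    induction l with
    | nil =>
      intro x r _ hr
      simp only [lv]
      have h1 := key r x hr
      have h2 := hVM x
      have h3 := sq_nonneg (v x)
      linarith
    | cons a l ih =>
      intro x r hl hr
      have hl' := List.isChain_cons_cons.1 hl
      have := ih a (x :: r) hl'.2 (List.isChain_cons_cons.2 ⟨hl'.1, hr⟩)
      simp only [lv, rv] at this ⊢
      linarith
  exact main z.l z.x z.r z.hl z.hr

end

end Pool.Agent.Helper372.LJ
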